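import Pool.Agent.Helper76x.NZ.Rate
import Pool.Agent.Y579.ST.GREEDY

/-! From the extension property to a solution computable in the colouring. -/

set_option autoImplicit false

namespace Pool.Agent.Helper76x.NZ

open Pool.Agent.Helper446 Pool.Agent.Helper446.RE Pool.Agent.Helper446.Oracle
  Pool.Agent.Helper446.Defs Pool.Agent.Y579.ST

/-- The graph of `c`, as a set of codes of pairs of natural numbers. -/
def gra {k : ℕ} (c : ℕ → Fin k) : Set ℕ := {n | (c n.unpair.1 : ℕ) = n.unpair.2}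

theorem re_graph {k : ℕ} (c : ℕ → Fin k) : REIn (gra c) fun p : ℕ × Fin k => c p.1 = p.2 := by
  have h := REIn.mem (A := gra c) (f := fun p : ℕ × Fin k => Nat.pair p.1 (p.2 : ℕ))
    (Computable₂.comp Primrec₂.natPair.to_comp Computable.fst
      (Primrec.fin_val.to_comp.comp Computable.snd))
  refine h.of_eq fun p => ?_
  show (c (Nat.pair p.1 (p.2 : ℕ)).unpair.1 : ℕ) = (Nat.pair p.1 (p.2 : ℕ)).unpair.2 ↔ _
  rw [Nat.unpair_pair]
  exact Fin.ext_iff.symm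

theorem easy {k : ℕ} {c : ℕ → Fin k} {i : Fin k} {Z : Set ℕ}
    (hc : REIn Z fun p : ℕ × Fin k => c p.1 = p.2)
    (h : ∀ (S : Finset ℕ) (N : ℕ), ∃ y, N < y ∧ ∀ s ∈ insert 0 S, c (s + y) = i) :
    ∃ X : Set ℕ, Sol c i X ∧ TuringReducible (chi X) (chi Z) := by
  have hg : REIn Z fun p : ℕ × Fin k => (fun _ : ℕ => i) p.1 = p.2 :=
    REIn.of_re (RE.eq (by fun_prop) (by fun_prop))
  obtain ⟨X, h1, h2, h3⟩ := t_GREEDY k c (fun _ => i) i Z hc hg fun S N _ => by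
    obtain ⟨y, hy, hy2⟩ := h S N
    refine ⟨y, hy, ?_, rfl, fun s hs => ⟨hy2 s (Finset.mem_insert_of_mem hs), rfl⟩⟩
    have := hy2 0 (Finset.mem_insert_self _ _)
    rwa [zero_add] at this
  exact ⟨X, h1, turingReducible_iff.2 ⟨h2, h3⟩⟩

/-- Two colours, as truth values. -/
theorem easy_bool {c : ℕ → Bool} {i : Bool}
    (h : ∀ (S : Finset ℕ) (N : ℕ), ∃ y, N < y ∧ ∀ s ∈ insert 0 S, c (s + y) = i) :
    ∃ X : Set ℕ, (X.Infinite ∧ 0 ∉ X ∧ ∀ F : Finset ℕ, (F : Set ℕ) ⊆ X → F.Nonempty →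
      c (∑ n ∈ F, n) = i) ∧ TuringReducible (chi X) (chi {n | c n = true}) := by
  let e : Bool → Fin 2 := fun b => if b = true then 1 else 0
  have he : Function.Injective e := by decide
  have hc : REIn {n | c n = true} fun p : ℕ × Fin 2 => e (c p.1) = p.2 := by
    have h1 : REIn {n | c n = true} fun p : ℕ × Fin 2 => (p.2 = 1 ∧ p.1 ∈ {n | c n = true}) ∨
        (p.2 = 0 ∧ p.1 ∉ {n | c n = true}) :=
      REIn.or (REIn.and (REIn.of_re (RE.eq (by fun_prop) (by fun_prop)))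
        (REIn.mem (by fun_prop))) (REIn.and (REIn.of_re (RE.eq (by fun_prop) (by fun_prop)))
        (REIn.not_mem (by fun_prop)))
    refine h1.of_eq fun p => ?_
    change ((p.2 = 1 ∧ c p.1 = true) ∨ (p.2 = 0 ∧ ¬ c p.1 = true)) ↔ _
    obtain ⟨n, j⟩ := p
    cases hcn : c n <;> fin_cases j <;> simp [e, hcn]
  obtain ⟨X, ⟨h1, h2, h3⟩, h4⟩ := easy (c := fun n => e (c n)) (i := e i) hc fun S N => by
    obtain ⟨y, hy, hy2⟩ := h S N
    exact ⟨y, hy, fun s hs => by rw [hy2 s hs]⟩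
  exact ⟨X, ⟨h1, h2, fun F f1 f2 => he (h3 F f1 f2)⟩, h4⟩

end Pool.Agent.Helper76x.NZ
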