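import Pool.Agent.Helper76x.NZ.Gen
import Pool.Agent.Helper76x.NZ.Easy

/-! Sets without translates of infinite sets of sums, and the transfer of solutions. -/

set_option autoImplicit false

namespace Pool.Agent.Helper76x.NZ

open Filter Pool.Agent.H645R2.HT Pool.Agent.TH747.HT Pool.Agent.TH747.HS
  Pool.Agent.Helper446 Pool.Agent.Helper446.RE Pool.Agent.Helper446.Oracle
  Pool.Agent.Helper446.Defs Pool.Agent.Y579.ST

/-- `N` contains no translate of the set of finite sums of an infinite set. -/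
def Thin (N : Set ℕ) : Prop := ∀ h, ¬ ∃ A : Set ℕ, A.Infinite ∧
  ∀ F : Finset ℕ, (F : Set ℕ) ⊆ A → F.Nonempty → h + ∑ n ∈ F, n ∈ N

theorem re_trans {α : Type} [Primcodable α] {A B : Set ℕ} {S : α → Prop} (h : REIn A S)
    (h1 : REIn B fun x => x ∈ A) (h2 : REIn B fun x => x ∉ A) : REIn B S := by
  obtain ⟨R, hR, hS⟩ := h
  have h3 : REIn B fun a => ∃ c : List ℕ × List ℕ, R a c ∧
      (∀ x ∈ c.1, x ∈ A) ∧ ∀ x ∈ c.2, x ∉ A := by
    refine REIn.ex (S := fun a (c : List ℕ × List ℕ) => R a c ∧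
      (∀ x ∈ c.1, x ∈ A) ∧ ∀ x ∈ c.2, x ∉ A) ?_
    refine REIn.and (REIn.of_re hR) (REIn.and ?_ ?_)
    · exact REIn.all_mem (S := fun (_ : α × (List ℕ × List ℕ)) (x : ℕ) => x ∈ A)
        (h1.comp (f := fun y : (α × (List ℕ × List ℕ)) × ℕ => y.2) (by fun_prop)) (by fun_prop)
    · exact REIn.all_mem (S := fun (_ : α × (List ℕ × List ℕ)) (x : ℕ) => x ∉ A)
        (h2.comp (f := fun y : (α × (List ℕ × List ℕ)) × ℕ => y.2) (by fun_prop)) (by fun_prop)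
  exact h3.of_eq fun a => (hS a).symm

/-- The greedy construction inside a set. -/
theorem greedy {Q Z : Set ℕ} (r1 : REIn Z fun n => n ∈ Q) (r2 : REIn Z fun n => n ∉ Q)
    (ext : ∀ (S : Finset ℕ) (N : ℕ), (∀ s ∈ S, s ∈ Q) → ∃ y, N < y ∧ y ∈ Q ∧ ∀ s ∈ S, s + y ∈ Q) :
    ∃ Y : Set ℕ, Y.Infinite ∧ 0 ∉ Y ∧
      (∀ F : Finset ℕ, (F : Set ℕ) ⊆ Y → F.Nonempty → ∑ n ∈ F, n ∈ Q) ∧
      TuringReducible (chi Y) (chi Z) := by
  classical
  let e : ℕ → Fin 2 := fun n => if n ∈ Q then 1 else 0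
  have he : ∀ n, e n = 1 ↔ n ∈ Q := fun n => by
    by_cases h : n ∈ Q <;> simp [e, h]
  have hc : REIn Z fun p : ℕ × Fin 2 => e p.1 = p.2 := by
    have h1 : REIn Z fun p : ℕ × Fin 2 => (p.2 = 1 ∧ p.1 ∈ Q) ∨ (p.2 = 0 ∧ p.1 ∉ Q) :=
      REIn.or (REIn.and (REIn.of_re (RE.eq (by fun_prop) (by fun_prop)))
        (r1.comp (by fun_prop))) (REIn.and (REIn.of_re (RE.eq (by fun_prop) (by fun_prop)))
        (r2.comp (by fun_prop)))
    refine h1.of_eq fun p => ?_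
    obtain ⟨n, j⟩ := p
    by_cases hn : n ∈ Q <;> fin_cases j <;> simp [e, hn]
  obtain ⟨Y, ⟨h1, h2, h3⟩, h4, h5⟩ := t_GREEDY 2 e e 1 Z hc hc fun S N hS => by
    obtain ⟨y, k1, k2, k3⟩ := ext S N fun s hs => (he s).1 (hS s hs).1
    exact ⟨y, k1, (he y).2 k2, (he y).2 k2, fun s hs => ⟨(he _).2 (k3 s hs), (he _).2 (k3 s hs)⟩⟩
  exact ⟨Y, h1, h2, fun F f1 f2 => (he _).1 (h3 F f1 f2), turingReducible_iff.2 ⟨h4, h5⟩⟩

/-- Typical shifts of a number are not in a thin set. -/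
theorem thin_gen {N : Set ℕ} (hN : Thin N) {U : Ultrafilter ℕ} (hU : Idem U) (h : ℕ) :
    ∀ᶠ l in (U : Filter ℕ), h + l ∉ N := by
  by_contra hc
  have hA : ∀ᶠ l in (U : Filter ℕ), h + l ∈ N := by
    have := Ultrafilter.eventually_not.2 hc
    simpa using this
  let As : Set ℕ := {l | h + l ∈ N ∧ ∀ᶠ l' in (U : Filter ℕ), h + (l + l') ∈ N}
  have h1 : ∀ᶠ l in (U : Filter ℕ), l ∈ As :=
    hA.and ((hU.1 fun n => h + n ∈ N).2 hA)
  have h2 : ∀ l ∈ As, ∀ᶠ l' in (U : Filter ℕ), l + l' ∈ As := by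
    intro l hl
    have h3 := (hU.1 fun n => h + (l + n) ∈ N).2 hl.2
    filter_upwards [hl.2, h3] with l' h4 h5
    refine ⟨h4, ?_⟩
    filter_upwards [h5] with l'' h6
    rwa [add_assoc l l' l'']
  obtain ⟨Y, k1, -, k2, -⟩ := greedy (Q := As) (Z := As) (REIn.mem Computable.id)
    (REIn.not_mem Computable.id) fun S M hS => by
      have h3 : ∀ᶠ y in (U : Filter ℕ), ∀ s ∈ S, s + y ∈ As := by
        rw [Filter.eventually_all_finset]
        exact fun s hs => h2 s (hS s hs)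
      obtain ⟨y, ⟨k1, k2⟩, k3, k4⟩ := ((h1.and h3).and (hU.far M)).exists
      have h5 := dg_lt (mem_L.1 (la_mem k3))
      exact ⟨y, by omega, k1, k2⟩
  exact hN h ⟨Y, k1, fun F f1 f2 => (k2 F f1 f2).1⟩

/-- Sets without large cubes are thin. -/
theorem NC.thin {m : ℕ} {N : Set ℕ} (hN : NC m N) : Thin N := by
  rintro h ⟨A, hA, hF⟩
  have hA' : (A \ {0}).Infinite := hA.diff (Set.finite_singleton 0)
  obtain ⟨U, hU, hUX⟩ := exists_idem hA' fun x hx => Nat.pos_of_ne_zero fun h => hx.2 h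
  obtain ⟨l, h1, G, g1, g2, -, rfl⟩ := ((gen_out hN hU h).and (hUX ∅)).exists
  exact h1 (hF G (g2.trans Set.diff_subset) g1)

/-- **Transfer.** A solution contains (among its sums) a set all of whose sums are in `P`, if typical
shifts are in `P`. -/
theorem transfer {X P Z : Set ℕ} (h0 : 0 ∉ X) {U : Ultrafilter ℕ} (hU : Idem U)
    (hUX : ∀ F : Finset ℕ, ∀ᶠ l in (U : Filter ℕ), l ∈ FSm X F)
    (hP : ∀ h, ∀ᶠ l in (U : Filter ℕ), h + l ∈ FS X → h + l ∈ P)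
    (r1 : REIn Z fun n => n ∈ X) (r2 : REIn Z fun n => n ∉ X) (r3 : REIn Z fun n => n ∈ P)
    (r4 : REIn Z fun n => n ∉ P) :
    ∃ Y : Set ℕ, Y.Infinite ∧ 0 ∉ Y ∧
      (∀ F : Finset ℕ, (F : Set ℕ) ⊆ Y → F.Nonempty → ∑ n ∈ F, n ∈ FS X ∧ ∑ n ∈ F, n ∈ P) ∧
      TuringReducible (chi Y) (chi Z) := by
  have q1 : REIn Z fun n => n ∈ FS X ∩ P :=
    REIn.and (re_trans re_FS r1 r2) r3
  have q2 : REIn Z fun n => n ∉ FS X ∩ P := by
    refine (REIn.or (re_trans re_not_FS r1 r2) r4).of_eq fun n => ?_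
    rw [Set.mem_inter_iff]
    tauto
  refine greedy q1 q2 fun S M hS => ?_
  have hsum : ∀ s ∈ FS X, ∀ᶠ l in (U : Filter ℕ), s + l ∈ FS X := by
    rintro s ⟨F, f1, f2, rfl⟩
    filter_upwards [hUX F] with l hl
    obtain ⟨G, g1, g2, g3, rfl⟩ := hl
    refine ⟨F ∪ G, f1.mono Finset.subset_union_left, ?_, Finset.sum_union g3⟩
    rw [Finset.coe_union]
    exact Set.union_subset f2 g2
  have h3 : ∀ᶠ y in (U : Filter ℕ), ∀ s ∈ S, s + y ∈ FS X ∩ P := by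
    rw [Filter.eventually_all_finset]
    intro s hs
    filter_upwards [hsum s (hS s hs).1, hP s] with y k1 k2
    exact ⟨k1, k2 k1⟩
  obtain ⟨y, ⟨⟨k1, k2⟩, k3⟩, k4, k5⟩ := (((h3.and (hUX ∅)).and (hP 0)).and (hU.far M)).exists
  have h5 := dg_lt (mem_L.1 (la_mem k4))
  have h6 : y ∈ FS X := by
    obtain ⟨G, g1, g2, -, rfl⟩ := k2
    exact ⟨G, g1, g2, rfl⟩
  rw [zero_add] at k3
  exact ⟨y, by omega, ⟨h6, k3 h6⟩, k1⟩

end Pool.Agent.Helper76x.NZ
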