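import Pool.Agent.Helper76x.NZ.Thin

/-! A computable set of small density whose complement is thin, after Straus. -/

set_option autoImplicit false

namespace Pool.Agent.Helper76x.NZ

open Filter Pool.Agent.H645R2.HT Pool.Agent.TH747.HT Pool.Agent.TH747.HS
  Pool.Agent.Helper446 Pool.Agent.Helper446.RE Pool.Agent.Helper446.Oracle
  Pool.Agent.Helper446.Defs Pool.Agent.Y579.ST

/-- The numbers `h + r 3 ^ (h + j)` with `r > 0`. -/
def Ds (j : ℕ) : Set ℕ := {n | ∃ h < n, 3 ^ (h + j) ∣ n - h}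

theorem thin_Ds (j : ℕ) : Thin (Ds j)ᶜ := by
  rintro h ⟨A, hA, hF⟩
  have hA' : (A \ {0}).Infinite := hA.sdiff (Set.finite_singleton 0)
  obtain ⟨U, hU, hUX⟩ := exists_idem hA' fun x hx => Nat.pos_of_ne_zero fun h => hx.2 h
  obtain ⟨l, ⟨⟨G, g1, g2, -, g3⟩, k2⟩, k3⟩ :=
    (((hUX ∅).and (hU.dvd (N := 3 ^ (h + j)) (by positivity))).and (hU.far 0)).exists
  have h5 := k3.1
  refine hF G (g2.trans Set.sdiff_subset) g1 ⟨h, ?_, ?_⟩
  · omega
  · have h6 : h + ∑ n ∈ G, n - h = l := by omega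
    rw [h6]
    exact k2

theorem comp_Ds (j : ℕ) : ComputablePred fun n => n ∈ Ds j := by
  rw [ComputablePred.computable_iff]
  refine ⟨fun n => exB (fun h => decide ((n - h) % 3 ^ (h + j) = 0)) n, ?_, ?_⟩
  · refine computable_exB (q := fun n h => decide ((n - h) % 3 ^ (h + j) = 0)) (f := fun n => n)
      ?_ Computable.id
    have h1 : Computable fun p : ℕ × ℕ => p.1 - p.2 :=
      Primrec.nat_sub.to_comp.comp Computable.fst Computable.snd
    have h2 : Computable fun p : ℕ × ℕ => 3 ^ (p.2 + j) :=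
      c_pow3 (Primrec.nat_add.to_comp.comp Computable.snd (Computable.const j))
    exact c_deq (c_mod h1 h2) (Computable.const 0)
  · funext n
    rw [eq_iff_iff, exB_iff]
    constructor
    · rintro ⟨h, h1, h2⟩
      exact ⟨h, h1, decide_eq_true (Nat.mod_eq_zero_of_dvd h2)⟩
    · rintro ⟨h, h1, h2⟩
      exact ⟨h, h1, Nat.dvd_of_mod_eq_zero (of_decide_eq_true h2)⟩

theorem sum_third (m : ℕ) : ∑ h ∈ Finset.range m, (1 / 3 : ℝ) ^ h ≤ 2 := by
  have h : ∀ m : ℕ, ∑ h ∈ Finset.range m, (1 / 3 : ℝ) ^ h + 3 / 2 * (1 / 3) ^ m = 3 / 2 := by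
    intro m
    induction m with
    | zero => norm_num
    | succ m ih =>
      rw [Finset.sum_range_succ, pow_succ]
      linarith
  have h1 := h m
  have h2 : (0 : ℝ) < (1 / 3) ^ m := by positivity
  linarith

theorem card_Ds (j x : ℕ) : ((Ds j ∩ Set.Icc 1 x).ncard : ℝ) ≤ 2 * (1 / 3) ^ j * x := by
  classical
  let T : ℕ → Finset ℕ := fun h => (Finset.Icc 1 x).filter fun n => h < n ∧ 3 ^ (h + j) ∣ n - h
  have h1 : Ds j ∩ Set.Icc 1 x ⊆ ((Finset.range x).biUnion T : Finset ℕ) := by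
    rintro n ⟨⟨h, k1, k2⟩, k3, k4⟩
    rw [Finset.mem_coe, Finset.mem_biUnion]
    exact ⟨h, Finset.mem_range.2 (lt_of_lt_of_le k1 k4),
      Finset.mem_filter.2 ⟨Finset.mem_Icc.2 ⟨k3, k4⟩, k1, k2⟩⟩
  have h2 : ∀ h, (T h).card ≤ x / 3 ^ (h + j) := by
    intro h
    have hq : 0 < 3 ^ (h + j) := by positivity
    calc (T h).card ≤ (Finset.Icc 1 (x / 3 ^ (h + j))).card := by
          refine Finset.card_le_card_of_injOn (fun n => (n - h) / 3 ^ (h + j)) ?_ ?_
          · intro n hn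
            obtain ⟨k1, k2, k3⟩ := Finset.mem_filter.1 hn
            obtain ⟨k4, k5⟩ := Finset.mem_Icc.1 k1
            refine Finset.mem_coe.2 (Finset.mem_Icc.2 ⟨?_, ?_⟩)
            · exact Nat.div_pos (Nat.le_of_dvd (by omega) k3) hq
            · exact Nat.div_le_div_right (by omega)
          · intro n hn n' hn' hnn
            obtain ⟨k1, k2, k3⟩ := Finset.mem_filter.1 hn
            obtain ⟨l1, l2, l3⟩ := Finset.mem_filter.1 hn'
            have h3 : n - h = n' - h := by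
              rw [← Nat.div_mul_cancel k3, ← Nat.div_mul_cancel l3]
              exact congrArg (· * 3 ^ (h + j)) hnn
            omega
      _ = x / 3 ^ (h + j) := by rw [Nat.card_Icc, Nat.add_sub_cancel]
  have h3 : (Ds j ∩ Set.Icc 1 x).ncard ≤ ∑ h ∈ Finset.range x, x / 3 ^ (h + j) := by
    refine (Set.ncard_le_ncard h1 (Finset.finite_toSet _)).trans ?_
    rw [Set.ncard_coe_finset]
    exact Finset.card_biUnion_le.trans (Finset.sum_le_sum fun h _ => h2 h)
  have h4 : ((∑ h ∈ Finset.range x, x / 3 ^ (h + j) : ℕ) : ℝ) ≤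
      ∑ h ∈ Finset.range x, ((1 / 3 : ℝ) ^ j * x) * (1 / 3) ^ h := by
    rw [Nat.cast_sum]
    refine Finset.sum_le_sum fun h _ => ?_
    refine Nat.cast_div_le.trans (le_of_eq ?_)
    rw [Nat.cast_pow, Nat.cast_ofNat, pow_add, one_div, inv_pow, inv_pow]
    field_simp
  have h5 : ((Ds j ∩ Set.Icc 1 x).ncard : ℝ) ≤
      ∑ h ∈ Finset.range x, ((1 / 3 : ℝ) ^ j * x) * (1 / 3) ^ h := (Nat.cast_le.2 h3).trans h4
  rw [← Finset.mul_sum] at h5
  have h6 : (0 : ℝ) ≤ (1 / 3) ^ j * x := by positivity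
  have h7 := mul_le_mul_of_nonneg_left (sum_third x) h6
  linarith

theorem small {ε : ℝ} (hε : 0 < ε) : ∃ j : ℕ, ∀ x : ℕ, ((Ds j ∩ Set.Icc 1 x).ncard : ℝ) ≤ ε * x := by
  obtain ⟨j, hj⟩ := exists_pow_lt_of_lt_one (show 0 < ε / 2 by positivity)
    (show (1 / 3 : ℝ) < 1 by norm_num)
  refine ⟨j, fun x => (card_Ds j x).trans ?_⟩
  exact mul_le_mul_of_nonneg_right (by linarith) (Nat.cast_nonneg x)

/-- A set which is not syndetic is disjoint from the sums of an infinite set computable in it. -/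
theorem avoid {D : Set ℕ} (hD : ∀ g, ∃ y, ∀ n, y ≤ n → n ≤ y + g → n ∉ D) :
    ∃ X : Set ℕ, X.Infinite ∧ 0 ∉ X ∧
      (∀ F : Finset ℕ, (F : Set ℕ) ⊆ X → F.Nonempty → ∑ n ∈ F, n ∉ D) ∧
      TuringReducible (chi X) (chi D) := by
  classical
  obtain ⟨X, ⟨h1, h2, h3⟩, h4⟩ := easy_bool (c := fun n => decide (n ∈ D)) (i := false)
    fun S N => by
      obtain ⟨y, hy⟩ := hD (N + 1 + S.sup id)
      refine ⟨y + (N + 1), by omega, fun s hs => decide_eq_false (hy _ (by omega) ?_)⟩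
      have h1 : s ≤ S.sup id := by
        rcases Finset.mem_insert.1 hs with h | h
        · omega
        · exact Finset.le_sup (f := id) h
      omega
  refine ⟨X, h1, h2, fun F f1 f2 => of_decide_eq_false (h3 F f1 f2), ?_⟩
  have h5 : {n | decide (n ∈ D) = true} = D := by
    ext n
    exact decide_eq_true_iff
  rwa [h5] at h4

end Pool.Agent.Helper76x.NZ
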