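import Mathlib

/-!
# Hindman's theorem for colourings with random noise: definitions and two statements

A set `N` of natural numbers (the places of the noise) is `Sp m` if it contains fewer than half of the
`2 ^ m` numbers `y + ∑ i ∈ F, x i` (`F` a subset of `{0, ..., m - 1}`), whenever `y` is large, all
`x i < y` and the `2 ^ m` sums of the `x i` are distinct.
-/

set_option autoImplicit false

namespace Pool.Agent.Helper76x.NZ

open MeasureTheory ProbabilityTheory

/-- Sparse sets: fewer than half of the numbers `y + ∑ i ∈ F, x i` are in `N`. -/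
def Sp (m : ℕ) (N : Set ℕ) : Prop :=
  ∃ Y0 : ℕ, ∀ y : ℕ, Y0 ≤ y → ∀ x : Fin m → ℕ, (∀ i, x i < y) →
    (Function.Injective fun F : Finset (Fin m) => ∑ i ∈ F, x i) →
    2 * {F : Finset (Fin m) | y + ∑ i ∈ F, x i ∈ N}.ncard < 2 ^ m

/-- **Piece P1** (first Borel-Cantelli lemma, about 120 lines). If the events `E n` are independent and
have probabilities `≤ C n ^ (-δ)`, `δ > 0`, then for some `m` the set of the `n` such that `E n` occurs is
almost surely `Sp m`.

Proof. WLOG `C ≥ 1`. Choose `m ≥ 1` with `m + 2 ≤ δ * 2 ^ (m - 1)`. For given `y ≥ 1` and `x` (all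
`x i < y`, distinct sums) let `T` be the set of the `2 ^ m` numbers `y + ∑ i ∈ F, x i`, all of them
`≥ y`. If at least half of them are in `N`, there is a subset `S` of `T` with exactly `2 ^ (m - 1)`
elements such that all `E n`, `n ∈ S`, occur; by independence (`iIndepSet.meas_biInter` or the
definition) this has probability `≤ (C y ^ (-δ)) ^ (2 ^ (m - 1))`. There are at most `2 ^ (2 ^ m)`
sets `S` and at most `y ^ m` functions `x` (`Fin m → Fin y`). So the probability that the condition fails
for some `x` at `y` is at most `y ^ m * 2 ^ (2 ^ m) * C ^ (2 ^ (m - 1)) * y ^ (-δ 2 ^ (m - 1))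
≤ K * y ^ (-2)`, which is summable; apply `measure_limsup_atTop_eq_zero` /
`ae_eventually_notMem` to the events that the condition fails for some `x` at `y`. -/
def S_P1 : Prop :=
  ∀ (Ω : Type) [MeasurableSpace Ω] (μ : Measure Ω) [IsProbabilityMeasure μ] (E : ℕ → Set Ω)
    (C δ : ℝ), (∀ n, MeasurableSet (E n)) → iIndepSet E μ → 0 < δ →
    (∀ n : ℕ, 0 < n → μ.real (E n) ≤ C * (n : ℝ) ^ (-δ)) →
    ∃ m : ℕ, 1 ≤ m ∧ ∀ᵐ ω ∂μ, Sp m {n | ω ∈ E n}

open Classical in
/-- **Piece P2** (second Borel-Cantelli lemma, about 120 lines). If the events `E n` are independent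
and `n ^ (-ε) ≤ P(E n) ≤ 1 - n ^ (-ε)` for all `ε > 0` and all large `n`, and the colouring `c` is
changed at the `n` such that `E n` occurs, then almost surely for all finite sets `S`, all `N` and both
colours `i` there is `y > N` such that `y` and all `s + y`, `s ∈ S`, have the colour `i`.

Proof. There are countably many `(S, N, i)`, so fix them, put `T = insert 0 S` and let `M` be larger than
all members of `T`. Let `B n` be the event that `n` has the colour `i` after the change; it is `E n`
(if `c n ≠ i`) or its complement (if `c n = i`), so the `B n` are independent and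
`P(B n) ≥ n ^ (-ε)` for large `n`. Put `y j = M * (N + 1 + j)`; the sets `y j + T` are disjoint, so the
events `A j` = (`B n` occurs for all `n ∈ y j + T`) are independent (`iIndepFun.finsets` for the
indicators, or by hand), and with `ε = 1 / (2 * card T)` for large `j`
`P(A j) ≥ (2 y j) ^ (-ε card T) = (2 M (N + 1 + j)) ^ (-1 / 2)`, so `∑ P(A j) = ∞` and almost
surely infinitely many `A j` occur (`measure_limsup_eq_one`). -/
def S_P2 : Prop :=
  ∀ (Ω : Type) [MeasurableSpace Ω] (μ : Measure Ω) [IsProbabilityMeasure μ] (E : ℕ → Set Ω)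
    (c : ℕ → Bool), (∀ n, MeasurableSet (E n)) → iIndepSet E μ →
    (∀ ε : ℝ, 0 < ε → ∃ n0 : ℕ, ∀ n : ℕ, n0 ≤ n →
      (n : ℝ) ^ (-ε) ≤ μ.real (E n) ∧ μ.real (E n) ≤ 1 - (n : ℝ) ^ (-ε)) →
    ∀ᵐ ω ∂μ, ∀ (S : Finset ℕ) (N : ℕ) (i : Bool), ∃ y, N < y ∧
      ∀ s ∈ insert 0 S, xor (c (s + y)) (decide (ω ∈ E (s + y))) = i

end Pool.Agent.Helper76x.NZ
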