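import Pool.Agent.N640.HU.Main
import Pool.Agent.Helper76x.NZ.Stm

/-! Sparse sets and idempotent ultrafilters. -/

set_option autoImplicit false

namespace Pool.Agent.Helper76x.NZ

open Filter Pool.Agent.H645R2.HT Pool.Agent.TH747.HT Pool.Agent.TH747.HS

/-- Superincreasing sequences have distinct sums. -/
theorem inj_aux (x : ℕ → ℕ) : ∀ n : ℕ, (∀ i < n, ∑ j ∈ Finset.range i, x j < x i) →
    ∀ F G : Finset ℕ, F ⊆ Finset.range n → G ⊆ Finset.range n →
      ∑ i ∈ F, x i = ∑ i ∈ G, x i → F = G := by
  classical
  intro n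
  induction n with
  | zero =>
    intro _ F G hF hG _
    rw [Finset.range_zero, Finset.subset_empty] at hF hG
    rw [hF, hG]
  | succ n ih =>
    intro hx
    have sub : ∀ F : Finset ℕ, F ⊆ Finset.range (n + 1) → n ∉ F → F ⊆ Finset.range n := by
      intro F hF hn i hi
      have h1 := Finset.mem_range.1 (hF hi)
      have h2 : i ≠ n := fun h => hn (h ▸ hi)
      exact Finset.mem_range.2 (by omega)
    have key : ∀ F G : Finset ℕ, F ⊆ Finset.range (n + 1) → G ⊆ Finset.range (n + 1) →
        ∑ i ∈ F, x i = ∑ i ∈ G, x i → n ∈ F → n ∈ G := by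
      intro F G _ hG h hn
      by_contra hc
      have h1 : x n ≤ ∑ i ∈ F, x i :=
        Finset.single_le_sum (f := x) (fun _ _ => Nat.zero_le _) hn
      have h3 : ∑ i ∈ G, x i ≤ ∑ i ∈ Finset.range n, x i :=
        Finset.sum_le_sum_of_subset (sub G hG hc)
      have h4 := hx n (Nat.lt_succ_self n)
      omega
    intro F G hF hG h
    by_cases hn : n ∈ F
    · have hn' := key F G hF hG h hn
      have h1 := Finset.sum_erase_add F x hn
      have h2 := Finset.sum_erase_add G x hn'
      have e := ih (fun i hi => hx i (by omega)) (F.erase n) (G.erase n)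
        (sub _ ((Finset.erase_subset _ _).trans hF) (Finset.notMem_erase _ _))
        (sub _ ((Finset.erase_subset _ _).trans hG) (Finset.notMem_erase _ _)) (by omega)
      rw [← Finset.insert_erase hn, e, Finset.insert_erase hn']
    · have hn' : n ∉ G := fun h' => hn (key G F hG hF h.symm h')
      exact ih (fun i hi => hx i (by omega)) F G (sub _ hF hn) (sub _ hG hn') h

theorem inj_fin {m : ℕ} {x : ℕ → ℕ} (hx : ∀ i < m, ∑ j ∈ Finset.range i, x j < x i) :
    Function.Injective fun F : Finset (Fin m) => ∑ i ∈ F, x i := by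
  intro F G h
  have hs : ∀ H : Finset (Fin m), H.map Fin.valEmbedding ⊆ Finset.range m := by
    intro H i hi
    obtain ⟨j, _, rfl⟩ := Finset.mem_map.1 hi
    exact Finset.mem_range.2 j.2
  have h1 := inj_aux x m hx (F.map Fin.valEmbedding) (G.map Fin.valEmbedding) (hs F) (hs G)
    (by simpa [Finset.sum_map] using h)
  exact Finset.map_injective _ h1

/-- The set `N` contains no large cubes `y + ∑ i ∈ F, x i` of dimension `m`. -/
def NC (m : ℕ) (N : Set ℕ) : Prop := ∃ Y0, ∀ y, Y0 ≤ y → ∀ x : ℕ → ℕ,
    (∀ i < m, ∑ j ∈ Finset.range i, x j < x i) → (∀ i < m, x i < y) →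
    ∃ F, F ⊆ Finset.range m ∧ y + ∑ i ∈ F, x i ∉ N

/-- Large cubes of sums are not contained in a sparse set. -/
theorem Sp.nc {m : ℕ} {N : Set ℕ} (h : Sp m N) : NC m N := by
  obtain ⟨Y0, hY⟩ := h
  refine ⟨Y0, fun y hy x hx hxy => ?_⟩
  by_contra hc
  push Not at hc
  have h1 := hY y hy (fun i => x i) (fun i => hxy i i.2) (inj_fin hx)
  have h2 : {F : Finset (Fin m) | y + ∑ i ∈ F, x i ∈ N} = Set.univ := by
    ext F
    simp only [Set.mem_univ, iff_true]
    change y + ∑ i ∈ F, x i ∈ N
    have h3 := hc (F.map Fin.valEmbedding) (by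
      intro i hi
      obtain ⟨j, _, rfl⟩ := Finset.mem_map.1 hi
      exact Finset.mem_range.2 j.2)
    simpa [Finset.sum_map] using h3
  rw [h2, Set.ncard_univ, Nat.card_eq_fintype_card, Fintype.card_finset, Fintype.card_fin] at h1
  have : 0 < 2 ^ m := by positivity
  omega

/-- Typical shifts of a number are not in a sparse set. -/
theorem gen_out {m : ℕ} {N : Set ℕ} (hN : NC m N) {U : Ultrafilter ℕ} (hU : Idem U) (h : ℕ) :
    ∀ᶠ l in (U : Filter ℕ), h + l ∉ N := by
  classical
  by_contra hc
  have hA : ∀ᶠ l in (U : Filter ℕ), h + l ∈ N := by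
    have := Ultrafilter.eventually_not.2 hc
    simpa using this
  obtain ⟨Y0, hY⟩ := hN
  let As : ℕ → Prop := fun l => h + l ∈ N ∧ ∀ᶠ l' in (U : Filter ℕ), h + (l + l') ∈ N
  have h1 : ∀ᶠ l in (U : Filter ℕ), As l :=
    hA.and ((hU.1 fun n => h + n ∈ N).2 hA)
  have h2 : ∀ l, As l → ∀ᶠ l' in (U : Filter ℕ), As (l + l') := by
    intro l hl
    have h3 := (hU.1 fun n => h + (l + n) ∈ N).2 hl.2
    filter_upwards [hl.2, h3] with l' h4 h5
    refine ⟨h4, ?_⟩
    filter_upwards [h5] with l'' h6
    rwa [add_assoc l l' l'']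
  have key : ∀ n, ∃ x : ℕ → ℕ, (∀ F, F ⊆ Finset.range n → F.Nonempty → As (∑ i ∈ F, x i)) ∧
      ∀ i < n, ∑ j ∈ Finset.range i, x j + Y0 < x i := by
    intro n
    induction n with
    | zero =>
      refine ⟨fun _ => 0, fun F hF hne => ?_, fun i hi => absurd hi (Nat.not_lt_zero i)⟩
      rw [Finset.range_zero, Finset.subset_empty] at hF
      exact absurd hF hne.ne_empty
    | succ n ih =>
      obtain ⟨x, hx1, hx2⟩ := ih
      have h3 : ∀ᶠ y in (U : Filter ℕ), ∀ F ∈ (Finset.range n).powerset, F.Nonempty →
          As (∑ i ∈ F, x i + y) := by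
        rw [Filter.eventually_all_finset]
        intro F hF
        by_cases hne : F.Nonempty
        · filter_upwards [h2 _ (hx1 F (Finset.mem_powerset.1 hF) hne)] with y hy _
          exact hy
        · exact Eventually.of_forall fun y h => absurd h hne
      obtain ⟨y, ⟨hy1, hy2⟩, hy3, hy4⟩ := ((h1.and h3).and
        (hU.far (∑ j ∈ Finset.range n, x j + Y0))).exists
      have hy5 : ∑ j ∈ Finset.range n, x j + Y0 < y := by
        have h5 := dg_lt (mem_L.1 (la_mem hy3))
        omega
      refine ⟨Function.update x n y, fun F hF hne => ?_, fun i hi => ?_⟩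
      · by_cases hn : n ∈ F
        · rw [← Finset.sum_erase_add F _ hn, Function.update_self]
          have e : ∑ i ∈ F.erase n, Function.update x n y i = ∑ i ∈ F.erase n, x i :=
            Finset.sum_congr rfl fun i hi =>
              Function.update_of_ne (Finset.ne_of_mem_erase hi) _ _
          rw [e]
          by_cases hne' : (F.erase n).Nonempty
          · refine hy2 _ (Finset.mem_powerset.2 fun i hi => ?_) hne'
            have h4 := Finset.mem_range.1 (hF (Finset.mem_of_mem_erase hi))
            have h5 := Finset.ne_of_mem_erase hi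
            exact Finset.mem_range.2 (by omega)
          · rw [Finset.not_nonempty_iff_eq_empty.1 hne']
            simpa using hy1
        · have e : ∑ i ∈ F, Function.update x n y i = ∑ i ∈ F, x i :=
            Finset.sum_congr rfl fun i hi =>
              Function.update_of_ne (by rintro rfl; exact hn hi) _ _
          rw [e]
          refine hx1 F (fun i hi => ?_) hne
          have h4 := Finset.mem_range.1 (hF hi)
          have h5 : i ≠ n := fun h => hn (h ▸ hi)
          exact Finset.mem_range.2 (by omega)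
      · have e : ∑ j ∈ Finset.range i, Function.update x n y j = ∑ j ∈ Finset.range i, x j :=
          Finset.sum_congr rfl fun j hj =>
            Function.update_of_ne (by have := Finset.mem_range.1 hj; omega) _ _
        rw [e]
        rcases Nat.lt_or_ge i n with h4 | h4
        · rw [Function.update_of_ne (by omega)]
          exact hx2 i h4
        · have h5 : i = n := by omega
          subst h5
          rw [Function.update_self]
          exact hy5
  obtain ⟨x, hx1, hx2⟩ := key (m + 1)
  have h3 := hx2 m (Nat.lt_succ_self m)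
  obtain ⟨F, hF, hout⟩ := hY (h + x m) (by omega) x (fun i hi => by have := hx2 i (by omega); omega)
    (fun i hi => by
      have h4 : x i ≤ ∑ j ∈ Finset.range m, x j :=
        Finset.single_le_sum (f := x) (fun _ _ => Nat.zero_le _) (Finset.mem_range.2 hi)
      omega)
  have hmF : m ∉ F := fun hm => absurd (Finset.mem_range.1 (hF hm)) (lt_irrefl _)
  have h4 := hx1 (insert m F) (by
    intro i hi
    rcases Finset.mem_insert.1 hi with rfl | hi
    · simp
    · have := Finset.mem_range.1 (hF hi)
      exact Finset.mem_range.2 (by omega)) (Finset.insert_nonempty _ _)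
  apply hout
  have h5 := h4.1
  rw [Finset.sum_insert hmF] at h5
  rwa [add_assoc]

end Pool.Agent.Helper76x.NZ
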