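import Pool.Agent.Helper76x.NZ.Stm

/-!
# Project NZ (helper76), piece P1 (helper33)
-/

set_option autoImplicit false
set_option linter.all false

namespace Pool.Agent.Helper76x.NZ

open MeasureTheory ProbabilityTheory Finset

theorem t_P1 : S_P1 := by
  intro Ω _ μ _ E C δ hE hind hδ hC
  classical
  -- choice of m
  obtain ⟨m, hm1, hm⟩ : ∃ m : ℕ, 1 ≤ m ∧ (m : ℝ) + 2 ≤ δ * 2 ^ (m - 1) := by
    have h1 := tendsto_pow_const_div_const_pow_of_one_lt 1 (by norm_num : (1 : ℝ) < 2)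
    have h2 := (h1.eventually (gt_mem_nhds (show (0 : ℝ) < δ / 4 by positivity))).and
      (Filter.eventually_ge_atTop 1)
    obtain ⟨n, hn, hn1⟩ := h2.exists
    refine ⟨n + 1, by omega, ?_⟩
    rw [Nat.add_sub_cancel]
    rw [div_lt_iff₀ (by positivity)] at hn
    have hn2 : (1 : ℝ) ≤ n := by exact_mod_cast hn1
    push_cast
    simp only [pow_one] at hn
    nlinarith
  refine ⟨m, hm1, ?_⟩
  obtain ⟨h, hh⟩ : ∃ h : ℕ, h = 2 ^ (m - 1) := ⟨_, rfl⟩
  have h2 : 2 * h = 2 ^ m := by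
    rw [hh, ← pow_succ']; congr 1; omega
  obtain ⟨C', hC'⟩ : ∃ C' : ℝ, C' = max C 1 := ⟨_, rfl⟩
  have hC0 : 0 < C' := by rw [hC']; exact lt_max_of_lt_right one_pos
  have hb : ∀ y n : ℕ, 0 < y → y ≤ n → μ (E n) ≤ ENNReal.ofReal (C' * (y : ℝ) ^ (-δ)) := by
    intro y n hy hyn
    have hy' : (0 : ℝ) < y := by exact_mod_cast hy
    have hyn' : (y : ℝ) ≤ n := by exact_mod_cast hyn
    rw [← ofReal_measureReal (μ := μ) (s := E n)]
    apply ENNReal.ofReal_le_ofReal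
    calc μ.real (E n) ≤ C * (n : ℝ) ^ (-δ) := hC n (by omega)
      _ ≤ C' * (n : ℝ) ^ (-δ) := by
          refine mul_le_mul_of_nonneg_right ?_ (by positivity)
          rw [hC']; exact le_max_left _ _
      _ ≤ C' * (y : ℝ) ^ (-δ) := by
          refine mul_le_mul_of_nonneg_left ?_ hC0.le
          exact Real.rpow_le_rpow_of_nonpos hy' hyn' (by linarith)
  -- the bad events
  set B : ℕ → Set Ω := fun y => ⋃ (x : Fin m → Fin y) (G : Finset (Finset (Fin m))),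
    (if G.card = h ∧ Function.Injective (fun F : Finset (Fin m) => ∑ i ∈ F, (x i : ℕ)) then
      ⋂ F ∈ G, E (y + ∑ i ∈ F, (x i : ℕ)) else ∅) with hBdef
  have hBm : ∀ y, 0 < y → μ (B y) ≤
      ENNReal.ofReal ((y : ℝ) ^ m * (2 ^ (2 ^ m) * (C' * (y : ℝ) ^ (-δ)) ^ h)) := by
    intro y hy
    have hy' : (0 : ℝ) < y := by exact_mod_cast hy
    have hpos : 0 ≤ C' * (y : ℝ) ^ (-δ) := by positivity
    have e1 : ∀ (x : Fin m → Fin y) (G : Finset (Finset (Fin m))),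
        μ (if G.card = h ∧ Function.Injective (fun F : Finset (Fin m) => ∑ i ∈ F, (x i : ℕ)) then
          ⋂ F ∈ G, E (y + ∑ i ∈ F, (x i : ℕ)) else ∅) ≤
          ENNReal.ofReal (C' * (y : ℝ) ^ (-δ)) ^ h := by
      intro x G
      split_ifs with hc
      · obtain ⟨hc1, hc2⟩ := hc
        have hinj : Set.InjOn (fun F : Finset (Fin m) => y + ∑ i ∈ F, (x i : ℕ)) G := by
          intro a _ b _ hab
          exact hc2 (Nat.add_left_cancel hab)
        have e2 : (⋂ F ∈ G, E (y + ∑ i ∈ F, (x i : ℕ))) =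
            ⋂ n ∈ G.image (fun F : Finset (Fin m) => y + ∑ i ∈ F, (x i : ℕ)), E n :=
          Finset.set_biInter_finset_image.symm
        rw [e2, hind.meas_biInter, ← hc1, ← card_image_of_injOn hinj]
        refine Finset.prod_le_pow_card _ _ _ ?_
        intro n hn
        obtain ⟨F, -, rfl⟩ := mem_image.1 hn
        exact hb y _ hy (Nat.le_add_right _ _)
      · rw [measure_empty]; exact bot_le
    have e3 : μ (B y) ≤ ∑ x : Fin m → Fin y, ∑ G : Finset (Finset (Fin m)),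
        ENNReal.ofReal (C' * (y : ℝ) ^ (-δ)) ^ h := by
      refine (measure_iUnion_fintype_le μ _).trans (sum_le_sum fun x _ => ?_)
      exact (measure_iUnion_fintype_le μ _).trans (sum_le_sum fun G _ => e1 x G)
    refine e3.trans (le_of_eq ?_)
    obtain ⟨q, hq⟩ : ∃ q : ℝ, q = C' * (y : ℝ) ^ (-δ) := ⟨_, rfl⟩
    rw [← hq] at hpos ⊢
    rw [sum_const, sum_const, card_univ, card_univ, Fintype.card_finset, Fintype.card_finset,
      Fintype.card_fun, Fintype.card_fin, Fintype.card_fin, nsmul_eq_mul, nsmul_eq_mul,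
      ENNReal.ofReal_mul (by positivity), ENNReal.ofReal_mul (by positivity),
      ENNReal.ofReal_pow hpos, ENNReal.ofReal_pow hy'.le, ENNReal.ofReal_natCast,
      ENNReal.ofReal_pow (by norm_num), ENNReal.ofReal_ofNat]
    push_cast
    rfl
  -- numbers
  have hnum : ∀ y : ℕ, 0 < y → (y : ℝ) ^ m * (2 ^ (2 ^ m) * (C' * (y : ℝ) ^ (-δ)) ^ h) ≤
      2 ^ (2 ^ m) * C' ^ h * (1 / (y : ℝ) ^ 2) := by
    intro y hy
    have hy' : (0 : ℝ) < y := by exact_mod_cast hy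
    have hy1 : (1 : ℝ) ≤ y := by exact_mod_cast hy
    have e1 : (y : ℝ) ^ m * ((y : ℝ) ^ (-δ)) ^ h ≤ 1 / (y : ℝ) ^ 2 := by
      have e2 : ((y : ℝ) ^ (-δ)) ^ h = (y : ℝ) ^ (-δ * h) := by
        rw [Real.rpow_mul hy'.le, Real.rpow_natCast]
      have e3 : (y : ℝ) ^ m = (y : ℝ) ^ (m : ℝ) := (Real.rpow_natCast _ _).symm
      have e4 : 1 / (y : ℝ) ^ 2 = (y : ℝ) ^ (-2 : ℝ) := by
        rw [Real.rpow_neg hy'.le, one_div]
        congr 1
        exact (Real.rpow_natCast _ 2).symm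
      rw [e2, e3, e4, ← Real.rpow_add hy']
      refine Real.rpow_le_rpow_of_exponent_le hy1 ?_
      have e5 : (h : ℝ) = 2 ^ (m - 1) := by rw [hh]; push_cast; rfl
      rw [e5]
      linarith
    have e6 : (y : ℝ) ^ m * (2 ^ (2 ^ m) * (C' * (y : ℝ) ^ (-δ)) ^ h) =
        2 ^ (2 ^ m) * C' ^ h * ((y : ℝ) ^ m * ((y : ℝ) ^ (-δ)) ^ h) := by
      rw [mul_pow]; ring
    rw [e6]
    exact mul_le_mul_of_nonneg_left e1 (by positivity)
  have hsum : ∑' y : ℕ, μ (B (y + 1)) ≠ ⊤ := by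
    have hs : Summable (fun y : ℕ => 2 ^ (2 ^ m) * C' ^ h * (1 / (((y + 1 : ℕ)) : ℝ) ^ 2)) := by
      refine Summable.mul_left _ ?_
      exact (summable_nat_add_iff 1).2 (Real.summable_one_div_nat_pow.2 (by norm_num))
    refine ne_top_of_le_ne_top hs.tsum_ofReal_ne_top (ENNReal.tsum_le_tsum fun y => ?_)
    exact (hBm (y + 1) (by omega)).trans (ENNReal.ofReal_le_ofReal (hnum (y + 1) (by omega)))
  filter_upwards [ae_eventually_notMem hsum] with ω hω
  obtain ⟨Y, hY⟩ := Filter.eventually_atTop.1 hω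
  refine ⟨Y + 1, fun y hy x hx hinj => ?_⟩
  by_contra hcon
  rw [not_lt, ← h2] at hcon
  have hcard : h ≤ (univ.filter fun F : Finset (Fin m) => ω ∈ E (y + ∑ i ∈ F, x i)).card := by
    have e1 : {F : Finset (Fin m) | y + ∑ i ∈ F, x i ∈ {n | ω ∈ E n}} =
        ((univ.filter fun F : Finset (Fin m) => ω ∈ E (y + ∑ i ∈ F, x i) : Finset _) : Set _) := by
      ext F; simp
    rw [e1, Set.ncard_coe_finset] at hcon
    omega
  obtain ⟨G, hG, hGc⟩ := exists_subset_card_eq hcard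
  have hy1 : y - 1 ≥ Y := by omega
  apply hY (y - 1) hy1
  rw [show y - 1 + 1 = y by omega, hBdef]
  simp only [Set.mem_iUnion]
  refine ⟨fun i => ⟨x i, hx i⟩, G, ?_⟩
  rw [if_pos ⟨hGc, hinj⟩]
  simp only [Set.mem_iInter]
  intro F hF
  exact (mem_filter.1 (hG hF)).2

end Pool.Agent.Helper76x.NZ
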