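import Pool.Agent.Helper76x.NZ.Thin
import Pool.Agent.Helper76x.NZ.P1

/-!
# Hindman's theorem for colourings with noise: a sharp threshold

Let `c` be a colouring of the positive integers, let every place `n` be noisy with probability `p n`,
independently, and let `c'` be a colouring which agrees with `c` at all the other places.

* If `p n ≤ C n ^ (-δ)` for some `δ > 0`, then almost surely (for all `c` and `c'` at once, the
  colours at the noisy places may be chosen by an adversary) every solution of Hindman's theorem for `c'`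
  computes, together with `c`, a solution for `c` of the same colour, and every solution for `c`
  computes, together with the set of the noisy places, a solution for `c'` of the same colour. So the
  strength of Hindman's theorem does not change. In particular all known lower bounds survive: the double
  jump, diagonally noncomputable functions relative to the triple jump, no `Σ⁰₄` solutions.
* If `p n` is `n ^ (-o(1))` (at least on infinitely many scales, and `1 - p n` as well) and the noisy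
  places get the other one of the two colours, then almost surely every colouring `e`, whatever its
  complexity, gets solutions of both colours that are computable in the changed colouring.
* For nonincreasing `p n ≤ 1 / 2` exactly one of the two cases holds.

The first part holds for all sets of places which contain no translate `h + FS(A)` of the set of finite
sums of an infinite set `A`.

The proof of `P1` and a first version of `P3` were written by helper33. The colourings in (3) and the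
greedy construction are those of the starting files.
-/

set_option autoImplicit false

namespace Pool.Agent.Results.MP_69fea5_lc.NoiseThreshold

open Filter MeasureTheory ProbabilityTheory

/-- The characteristic function of a set of natural numbers, as a (total) partial function. -/
noncomputable def char (B : Set ℕ) : ℕ →. ℕ := by
  classical exact fun n => Part.some (if n ∈ B then 1 else 0)

/-- The join of two sets. -/
def join (A B : Set ℕ) : Set ℕ := {n | (n % 2 = 0 ∧ n / 2 ∈ A) ∨ (n % 2 = 1 ∧ n / 2 ∈ B)}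

/-- The graph of a colouring, as a set of codes of pairs. -/
def graph {k : ℕ} (c : ℕ → Fin k) : Set ℕ := {n | (c n.unpair.1 : ℕ) = n.unpair.2}

/-- The sums of the nonempty finite subsets of `X`. -/
def sums (X : Set ℕ) : Set ℕ := {n | ∃ F : Finset ℕ, F.Nonempty ∧ (F : Set ℕ) ⊆ X ∧ ∑ x ∈ F, x = n}

/-- `X` is a solution of Hindman's theorem for `c` with the colour `i`: an infinite set of positive
integers all of whose sums of finitely many distinct elements have the colour `i`. -/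
def Solution {κ : Type} (c : ℕ → κ) (X : Set ℕ) (i : κ) : Prop :=
  X.Infinite ∧ 0 ∉ X ∧ ∀ n ∈ sums X, c n = i

/-- `N` contains no translate `h + sums A` of the set of sums of an infinite set `A`. -/
def Thin (N : Set ℕ) : Prop := ¬ ∃ (h : ℕ) (A : Set ℕ), A.Infinite ∧ ∀ n ∈ sums A, h + n ∈ N

/-- `N` contains no large cubes of dimension `m`: if `y ≥ Y₀`, every `x i` is smaller than `y` and
larger than the sum of the `x j` with `j < i` (`i < m`), then one of the `2 ^ m` numbers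
`y + ∑ i ∈ F, x i` is not in `N`. -/
def NoCube (m : ℕ) (N : Set ℕ) : Prop := ∃ Y₀, ∀ y, Y₀ ≤ y → ∀ x : ℕ → ℕ,
  (∀ i < m, ∑ j ∈ Finset.range i, x j < x i) → (∀ i < m, x i < y) →
    ∃ F, F ⊆ Finset.range m ∧ y + ∑ i ∈ F, x i ∉ N

/-- Every `Σ⁰₂` set is Turing reducible to `X`, so `X` computes the double jump. -/
def ComputesDoubleJump (X : Set ℕ) : Prop :=
  ∀ R : ℕ → ℕ → ℕ → Bool, Computable (fun q : ℕ × ℕ × ℕ => R q.1 q.2.1 q.2.2) →
    TuringReducible (char {n | ∃ a, ∀ b, R n a b = true}) (char X)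

/-- For every `Σ⁰₄` relation `G` there is a function `f` computable in `X` such that for no `q`
the number `f q` is the only `m` with `G q m`. If `G` is the graph of the diagonal partial function
computable in `0'''`, then `f` is diagonally noncomputable relative to `0'''`. -/
def DiagonalOverTripleJump (X : Set ℕ) : Prop :=
  ∀ R : ℕ → ℕ → ℕ → ℕ → ℕ → ℕ → Bool,
    Computable (fun x : ℕ × ℕ × ℕ × ℕ × ℕ × ℕ =>
      R x.1 x.2.1 x.2.2.1 x.2.2.2.1 x.2.2.2.2.1 x.2.2.2.2.2) →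
    ∃ f : ℕ → ℕ, TuringReducible (fun n => Part.some (f n)) (char X) ∧
      ∀ q, ¬ ∀ m, (∃ a, ∀ b, ∃ t, ∀ u, R q m a b t u = true) ↔ m = f q

/-- `X` is not `Σ⁰₄`. -/
def NotSigmaFour (X : Set ℕ) : Prop :=
  ∀ R : ℕ → ℕ → ℕ → ℕ → ℕ → Bool,
    Computable (fun x : ℕ × ℕ × ℕ × ℕ × ℕ => R x.1 x.2.1 x.2.2.1 x.2.2.2.1 x.2.2.2.2) →
    X ≠ {n | ∃ a, ∀ b, ∃ t, ∀ u, R n a b t u = true}

/-- Polynomial decay: `p n ≤ C n ^ (-δ)` for some `δ > 0`. -/
def PolynomialDecay (p : ℕ → ℝ) : Prop :=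
  ∃ C δ : ℝ, 0 < δ ∧ ∀ n : ℕ, 0 < n → p n ≤ C * (n : ℝ) ^ (-δ)

/-- For every `ε > 0` there are arbitrarily large `x` with `x ^ (-ε) ≤ p n ≤ 1 - x ^ (-ε)` for
`x ≤ n ≤ 2 x`. -/
def ModerateOnScales (p : ℕ → ℝ) : Prop := ∀ ε : ℝ, 0 < ε → ∀ n₀ : ℕ, ∃ x : ℕ, n₀ ≤ x ∧
  ∀ n : ℕ, x ≤ n → n ≤ 2 * x → (x : ℝ) ^ (-ε) ≤ p n ∧ p n ≤ 1 - (x : ℝ) ^ (-ε)

/-- The colouring `e` with the other colour at the numbers in `N`. -/
noncomputable def flip (e : ℕ → Bool) (N : Set ℕ) (n : ℕ) : Bool := by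
  classical exact xor (e n) (decide (n ∈ N))

section proofs

open Pool.Agent.H645R2.HT Pool.Agent.TH747.HS Pool.Agent.Helper446.Oracle
open Pool.Agent.TH747.HT hiding dl el c_dl c_el col
open Pool.Agent.Helper76x.NZ (re_trans transfer thin_gen)

lemma thin_iff {N : Set ℕ} : Thin N ↔ Pool.Agent.Helper76x.NZ.Thin N := by
  unfold Thin Pool.Agent.Helper76x.NZ.Thin
  constructor
  · rintro h h' ⟨A, h1, h2⟩
    refine h ⟨h', A, h1, ?_⟩
    rintro n ⟨F, f1, f2, rfl⟩
    exact h2 F f2 f1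
  · rintro h ⟨h', A, h1, h2⟩
    exact h h' ⟨A, h1, fun F f1 f2 => h2 _ ⟨F, f2, f1, rfl⟩⟩

lemma join_left (A B : Set ℕ) : (REIn (join A B) fun n => n ∈ A) ∧
    REIn (join A B) fun n => n ∉ A := by
  have h : ∀ n, 2 * n ∈ join A B ↔ n ∈ A := by
    intro n
    change ((2 * n) % 2 = 0 ∧ 2 * n / 2 ∈ A) ∨ ((2 * n) % 2 = 1 ∧ 2 * n / 2 ∈ B) ↔ n ∈ A
    have e1 : (2 * n) % 2 = 0 := by omega
    have e2 : 2 * n / 2 = n := by omega
    rw [e1, e2]
    simp
  have hc : Computable fun n : ℕ => 2 * n :=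
    (Primrec.nat_mul.comp (Primrec.const 2) Primrec.id).to_comp
  exact ⟨(REIn.mem hc).of_eq h, (REIn.not_mem hc).of_eq fun n => not_congr (h n)⟩

lemma join_right (A B : Set ℕ) : (REIn (join A B) fun n => n ∈ B) ∧
    REIn (join A B) fun n => n ∉ B := by
  have h : ∀ n, 2 * n + 1 ∈ join A B ↔ n ∈ B := by
    intro n
    change ((2 * n + 1) % 2 = 0 ∧ (2 * n + 1) / 2 ∈ A) ∨
      ((2 * n + 1) % 2 = 1 ∧ (2 * n + 1) / 2 ∈ B) ↔ n ∈ B
    have e1 : (2 * n + 1) % 2 = 1 := by omega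
    have e2 : (2 * n + 1) / 2 = n := by omega
    rw [e1, e2]
    simp
  have hc : Computable fun n : ℕ => 2 * n + 1 :=
    (Primrec.succ.comp (Primrec.nat_mul.comp (Primrec.const 2) Primrec.id)).to_comp
  exact ⟨(REIn.mem hc).of_eq h, (REIn.not_mem hc).of_eq fun n => not_congr (h n)⟩

/-- Solutions for `c'` compute solutions for `c`. -/
lemma down {k : ℕ} {c c' : ℕ → Fin k} {N X Z : Set ℕ} {i : Fin k} (hN : Thin N)
    (hc : ∀ n, n ∉ N → c' n = c n) (hX : Solution c' X i) (r1 : REIn Z fun n => n ∈ X)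
    (r2 : REIn Z fun n => n ∉ X) (r3 : REIn Z fun p : ℕ × Fin k => c p.1 = p.2) :
    ∃ Y, Solution c Y i ∧ sums Y ⊆ sums X ∧ TuringReducible (char Y) (char Z) := by
  obtain ⟨h1, h2, h3⟩ := hX
  obtain ⟨U, hU, hUX⟩ := exists_idem h1
    (fun x hx => Nat.pos_of_ne_zero fun h => h2 (h ▸ hx))
  have r4 : REIn Z fun n => n ∉ {n | c n = i} := by
    have h4 : REIn Z fun n : ℕ => ∃ j : Fin k, c n = j ∧ j ≠ i := by
      refine REIn.ex (S := fun (n : ℕ) (j : Fin k) => c n = j ∧ j ≠ i) ?_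
      exact REIn.and r3 (REIn.of_re (Pool.Agent.Helper446.RE.ne (by fun_prop) (by fun_prop)))
    refine h4.of_eq fun n => ⟨?_, fun h => ⟨_, rfl, h⟩⟩
    rintro ⟨j, rfl, h⟩
    exact h
  obtain ⟨Y, k1, k2, k3, k4⟩ := transfer (P := {n | c n = i}) (Z := Z) h2 hU hUX
    (fun h => by
      filter_upwards [thin_gen (thin_iff.1 hN) hU h] with l hl hFS
      have h4 := h3 _ hFS
      rw [hc _ hl] at h4
      exact h4) r1 r2 ((r3.comp (f := fun n : ℕ => (n, i)) (by fun_prop)).of_eq fun _ => Iff.rfl) r4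
  refine ⟨Y, ⟨k1, k2, ?_⟩, ?_, k4⟩
  · rintro n ⟨F, f1, f2, rfl⟩
    exact (k3 F f2 f1).2
  · rintro n ⟨F, f1, f2, rfl⟩
    exact (k3 F f2 f1).1

/-- Solutions for `c` and `N` compute solutions for `c'`. -/
lemma up {k : ℕ} {c c' : ℕ → Fin k} {N Y : Set ℕ} {i : Fin k} (hN : Thin N)
    (hc : ∀ n, n ∉ N → c' n = c n) (hY : Solution c Y i) :
    ∃ X, Solution c' X i ∧ sums X ⊆ sums Y ∧ TuringReducible (char X) (char (join Y N)) := by
  obtain ⟨h1, h2, h3⟩ := hY
  obtain ⟨U, hU, hUX⟩ := exists_idem h1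
    (fun x hx => Nat.pos_of_ne_zero fun h => h2 (h ▸ hx))
  obtain ⟨X, k1, k2, k3, k4⟩ := transfer (P := Nᶜ) (Z := join Y N) h2 hU hUX
    (fun h => by
      filter_upwards [thin_gen (thin_iff.1 hN) hU h] with l hl _
      exact hl) (join_left Y N).1 (join_left Y N).2 (join_right Y N).2
    ((join_right Y N).1.of_eq fun n => by rw [Set.mem_compl_iff, not_not])
  refine ⟨X, ⟨k1, k2, ?_⟩, ?_, k4⟩
  · rintro n ⟨F, f1, f2, rfl⟩
    obtain ⟨h4, h5⟩ := k3 F f2 f1
    rw [hc _ h5]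
    exact h3 _ h4
  · rintro n ⟨F, f1, f2, rfl⟩
    exact (k3 F f2 f1).1

/-- Truth values as colours. -/
def b2 (b : Bool) : Fin 2 := if b = true then 1 else 0

lemma b2_inj : Function.Injective b2 := by
  intro a b h
  revert h
  cases a <;> cases b <;> simp [b2]

lemma double {N : Set ℕ} (hN : Thin N) {c' : ℕ → Bool}
    (hc : ∀ n, n ∉ N → c' n = Pool.Agent.N640.HU.cf n) {X : Set ℕ} {i : Bool}
    (hX : Solution c' X i) : ComputesDoubleJump X := by
  intro R hR
  have hcomp : Computable fun n => b2 (Pool.Agent.N640.HU.cf n) :=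
    ((Primrec.dom_finite b2).to_comp).comp Pool.Agent.N640.HU.c_cf
  obtain ⟨Y, ⟨k1, k2, k3⟩, -, k4⟩ := down (c := fun n => b2 (Pool.Agent.N640.HU.cf n))
    (c' := fun n => b2 (c' n)) (i := b2 i) hN (fun n hn => congrArg b2 (hc n hn))
    ⟨hX.1, hX.2.1, fun n hn => congrArg b2 (hX.2.2 n hn)⟩ (REIn.mem (A := X) Computable.id)
    (REIn.not_mem Computable.id)
    (REIn.of_re (Pool.Agent.Helper446.RE.eq (hcomp.comp Computable.fst) (by fun_prop)))
  have h1 := Pool.Agent.N640.HU.uniform (𝓕 := fun X => X.Infinite ∧ 0 ∉ X ∧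
      ∃ i, ∀ F : Finset ℕ, (F : Set ℕ) ⊆ X → F.Nonempty →
        Pool.Agent.N640.HU.cf (∑ n ∈ F, n) = i) Pool.Agent.N640.HU.ue_FS
    (fun X hX => Pool.Agent.N640.HU.good_FS hX.1 hX.2.1 hX.2.2) hR
  have hY : Y.Infinite ∧ 0 ∉ Y ∧ ∃ i, ∀ F : Finset ℕ, (F : Set ℕ) ⊆ Y → F.Nonempty →
      Pool.Agent.N640.HU.cf (∑ n ∈ F, n) = i :=
    ⟨k1, k2, i, fun F f1 f2 => b2_inj (k3 _ ⟨F, f2, f1, rfl⟩)⟩
  obtain ⟨q1, q2⟩ := turingReducible_iff.1 k4
  exact turingReducible_iff.2 ⟨re_trans (h1.1.reIn hY) q1 q2, re_trans (h1.2.reIn hY) q1 q2⟩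

lemma diag {N : Set ℕ} (hN : Thin N) {d' : ℕ → Bool}
    (hd' : ∀ n, n ∉ N → d' n = col (D3k W0 3) n) {X : Set ℕ} {i : Bool}
    (hX : Solution d' X i) : DiagonalOverTripleJump X ∧ NotSigmaFour X := by
  obtain ⟨h1, h2, h3⟩ := hX
  obtain ⟨U, hU, hUX⟩ := exists_idem h1
    (fun x hx => Nat.pos_of_ne_zero fun h => h2 (h ▸ hx))
  have hY : ∀ N, ∃ x ∈ FS X, 3 ^ N ∣ x := by
    intro N
    obtain ⟨n, ⟨G, g1, g2, -, rfl⟩, hn⟩ :=
      ((hUX ∅).and (hU.dvd (N := 3 ^ N) (by positivity))).exists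
    exact ⟨_, ⟨G, g1, g2, rfl⟩, hn⟩
  have hV2 : ∃ i, ∀ h ∈ FS X, Sm U 3 (fun l => col (D3k W0 3) (h + l) = i) := by
    refine ⟨i, ?_⟩
    rintro h ⟨F, f1, f2, rfl⟩
    rw [Sm_idem hU (by omega)]
    filter_upwards [hUX F, thin_gen (thin_iff.1 hN) hU (∑ n ∈ F, n)] with l hl hl2
    rw [← hd' _ hl2]
    obtain ⟨G, g1, g2, g3, rfl⟩ := hl
    refine h3 _ ⟨F ∪ G, f1.mono Finset.subset_union_left, ?_, Finset.sum_union g3⟩
    rw [Finset.coe_union]
    exact Set.union_subset f2 g2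
  constructor
  · intro R hR
    obtain ⟨f, hf1, hf2⟩ :=
      dnc (k := 3) le_rfl hU.far (zero_notMem_FS h2) hY hV2 re_FS re_not_FS hR
    exact ⟨f, turingReducible_fun_iff.2 hf1, hf2⟩
  · intro R hR hXR
    exact no_sigma4 (k := 3) le_rfl hU.far (zero_notMem_FS h2) hY hV2 (c_RFS hR) (FS_sig4 hXR)

end proofs

open Pool.Agent.Helper76x.NZ in
/-- **The threshold for noise in Hindman's theorem.** -/
theorem result :
    -- (1) transfer: `c` and `c'` agree outside of a thin set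
    (∀ (k : ℕ) (c c' : ℕ → Fin k) (N : Set ℕ) (i : Fin k), Thin N → (∀ n, n ∉ N → c' n = c n) →
      (∀ X, Solution c' X i → ∃ Y, Solution c Y i ∧ sums Y ⊆ sums X ∧
        TuringReducible (char Y) (char (join X (graph c)))) ∧
      (Computable c → ∀ X, Solution c' X i → ∃ Y, Solution c Y i ∧ sums Y ⊆ sums X ∧
        TuringReducible (char Y) (char X)) ∧
      ∀ Y, Solution c Y i → ∃ X, Solution c' X i ∧ sums X ⊆ sums Y ∧
        TuringReducible (char X) (char (join Y N))) ∧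
    -- (2) sets without large cubes are thin, and so is almost surely the set of the noisy places for
    -- independent noise of polynomially decaying rate
    (∀ (m : ℕ) (N : Set ℕ), NoCube m N → Thin N) ∧
    (∀ (Ω : Type) [MeasurableSpace Ω] (μ : Measure Ω) [IsProbabilityMeasure μ] (E : ℕ → Set Ω),
      (∀ n, MeasurableSet (E n)) → iIndepSet E μ → PolynomialDecay (fun n => μ.real (E n)) →
        (∃ m, ∀ᵐ ω ∂μ, NoCube m {n | ω ∈ E n}) ∧ ∀ᵐ ω ∂μ, Thin {n | ω ∈ E n}) ∧
    -- (3) two computable colourings for which the known lower bounds survive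
    (∃ c d : ℕ → Bool, Computable c ∧ Computable d ∧ ∀ N : Set ℕ, Thin N →
      (∀ c' : ℕ → Bool, (∀ n, n ∉ N → c' n = c n) → ∀ X i, Solution c' X i →
        ComputesDoubleJump X) ∧
      ∀ d' : ℕ → Bool, (∀ n, n ∉ N → d' n = d n) → ∀ X i, Solution d' X i →
        DiagonalOverTripleJump X ∧ NotSigmaFour X) ∧
    -- (4) noise of rate `n ^ (-o(1))` on infinitely many scales: solutions of both colours computable
    -- in the colouring
    (∀ (Ω : Type) [MeasurableSpace Ω] (μ : Measure Ω) [IsProbabilityMeasure μ] (E : ℕ → Set Ω),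
      (∀ n, MeasurableSet (E n)) → iIndepSet E μ → ModerateOnScales (fun n => μ.real (E n)) →
        ∀ e : ℕ → Bool, ∀ᵐ ω ∂μ, ∀ i : Bool, ∃ X : Set ℕ, Solution (flip e {n | ω ∈ E n}) X i ∧
          TuringReducible (char X) (char {n | flip e {n | ω ∈ E n} n = true})) ∧
    -- (5) the dichotomy for nonincreasing rates
    (∀ p : ℕ → ℝ, Antitone p → (∀ n, p n ≤ 1 / 2) →
      (PolynomialDecay p ↔ ¬ ModerateOnScales p)) := by
  have hnc : ∀ (m : ℕ) (N : Set ℕ), NoCube m N → Thin N := fun m N hN =>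
    thin_iff.2 (NC.thin (m := m) hN)
  have hsol : ∀ {κ : Type} {c : ℕ → κ} {X : Set ℕ} {i : κ}, (X.Infinite ∧ 0 ∉ X ∧
      ∀ F : Finset ℕ, (F : Set ℕ) ⊆ X → F.Nonempty → c (∑ n ∈ F, n) = i) → Solution c X i := by
    rintro κ c X i ⟨h1, h2, h3⟩
    refine ⟨h1, h2, ?_⟩
    rintro n ⟨F, f1, f2, rfl⟩
    exact h3 F f2 f1
  refine ⟨?_, hnc, ?_, ⟨Pool.Agent.N640.HU.cf, Pool.Agent.TH747.HS.col
    (Pool.Agent.TH747.HS.D3k Pool.Agent.H645R2.HT.W0 3), Pool.Agent.N640.HU.c_cf,
    Pool.Agent.TH747.HS.c_col (Pool.Agent.TH747.HS.c_D3k Pool.Agent.H645R2.HT.c_W0 3),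
    fun N hN => ⟨fun c' hc X i hX => double hN hc hX, fun d' hd X i hX => diag hN hd hX⟩⟩,
    ?_, ?_⟩
  · intro k c c' N i hN hc
    refine ⟨fun X hX => ?_, fun hcomp X hX => ?_, fun Y hY => up hN hc hY⟩
    · exact down hN hc hX (join_left X (graph c)).1 (join_left X (graph c)).2
        (re_trans (re_graph c) (join_right X (graph c)).1 (join_right X (graph c)).2)
    · exact down hN hc hX (Pool.Agent.Helper446.Oracle.REIn.mem Computable.id)
        (Pool.Agent.Helper446.Oracle.REIn.not_mem Computable.id)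
        (Pool.Agent.Helper446.Oracle.REIn.of_re
          (Pool.Agent.Helper446.RE.eq (hcomp.comp Computable.fst) (by fun_prop)))
  · rintro Ω _ μ _ E hm hi ⟨C, δ, hδ, hp⟩
    obtain ⟨m, -, h⟩ := t_P1 Ω μ E C δ hm hi hδ hp
    have h1 : ∀ᵐ ω ∂μ, NoCube m {n | ω ∈ E n} := by
      filter_upwards [h] with ω hω
      exact hω.nc
    refine ⟨⟨m, h1⟩, ?_⟩
    filter_upwards [h1] with ω hω
    exact hnc m _ hω
  · intro Ω _ μ _ E hm hi hp e
    filter_upwards [heavy_ext Ω μ E e hm hi hp] with ω hω i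
    obtain ⟨X, h1, h2⟩ := easy_bool (c := flip e {n | ω ∈ E n}) (i := i) fun S N => by
      obtain ⟨y, hy, hy2⟩ := hω i S N
      exact ⟨y, hy, fun s hs => hy2 s hs⟩
    exact ⟨X, hsol h1, h2⟩
  · exact fun p hp h12 => ⟨not_heavy, decay_of_not_heavy hp h12⟩

end Pool.Agent.Results.MP_69fea5_lc.NoiseThreshold
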