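import Pool.Agent.Helper76x.NZ.Stm

/-!
# Project NZ (helper76), piece P2 (helper33)
-/

set_option autoImplicit false
set_option linter.all false

namespace Pool.Agent.Helper76x.NZ

open MeasureTheory ProbabilityTheory Finset

theorem P2.num (a b : ℝ) (t : ℕ) (ha : 0 < a) (hb : 0 < b) (ht : 0 < t) :
    a ^ (-(1 / 2 : ℝ)) * b ^ (-(1 / 2 : ℝ)) = ((a * b) ^ (-(1 / (2 * (t : ℝ))))) ^ t := by
  have ht' : (0 : ℝ) < t := by exact_mod_cast ht
  have hab : 0 < a * b := mul_pos ha hb
  rw [← Real.rpow_natCast, ← Real.rpow_mul hab.le, ← Real.mul_rpow ha.le hb.le]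
  congr 1
  field_simp

open Classical in
theorem t_P2 : S_P2 := by
  intro Ω _ μ _ E c hE hind hp
  rw [ae_all_iff]; intro S
  rw [ae_all_iff]; intro N
  rw [ae_all_iff]; intro i
  -- the set T and the number M
  set T : Finset ℕ := insert 0 S with hT
  have hTn : T.Nonempty := ⟨0, mem_insert_self _ _⟩
  obtain ⟨M, hM⟩ : ∃ M : ℕ, ∀ s ∈ T, s < M := ⟨T.sup id + 1, fun s hs =>
    Nat.lt_succ_of_le (Finset.le_sup (f := id) hs)⟩
  have hM0 : 0 < M := (Nat.zero_le _).trans_lt (hM 0 (mem_insert_self _ _))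
  -- the events B n
  set B : ℕ → Set Ω := fun n => {ω | xor (c n) (decide (ω ∈ E n)) = i} with hB
  have hBE : ∀ n, B n = E n ∨ B n = (E n)ᶜ := by
    intro n
    rw [hB]
    cases hc : c n <;> cases hi : i <;> simp only [hc, hi]
    · right; ext ω; simp
    · left; ext ω; simp
    · left; ext ω; simp
    · right; ext ω; simp
  have hBm : ∀ n, MeasurableSet (B n) := by
    intro n
    rcases hBE n with h | h <;> rw [h]
    · exact hE n
    · exact (hE n).compl
  have hBind : ∀ J : Finset ℕ, μ (⋂ n ∈ J, B n) = ∏ n ∈ J, μ (B n) := by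
    intro J
    have h1 := (iIndepSet_iff_iIndep E μ).1 hind
    refine h1.meas_biInter fun n _ => ?_
    have h2 : MeasurableSet[MeasurableSpace.generateFrom {E n}] (E n) :=
      MeasurableSpace.measurableSet_generateFrom (Set.mem_singleton _)
    rcases hBE n with h | h <;> rw [h]
    · exact h2
    · exact h2.compl
  have hBp : ∀ ε : ℝ, 0 < ε → ∃ n0 : ℕ, ∀ n : ℕ, n0 ≤ n → (n : ℝ) ^ (-ε) ≤ μ.real (B n) := by
    intro ε hε
    obtain ⟨n0, hn0⟩ := hp ε hε
    refine ⟨n0, fun n hn => ?_⟩
    obtain ⟨e1, e2⟩ := hn0 n hn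
    rcases hBE n with h | h <;> rw [h]
    · exact e1
    · rw [probReal_compl_eq_one_sub (hE n)]; linarith
  -- the blocks
  set y : ℕ → ℕ := fun j => M * (N + 1 + j) with hy
  set Tj : ℕ → Finset ℕ := fun j => T.image (fun s => s + y j) with hTj
  have hdisj : ∀ J : Finset ℕ, (J : Set ℕ).PairwiseDisjoint Tj := by
    intro J a _ b _ hab
    rw [Function.onFun, disjoint_left]
    intro n hna hnb
    obtain ⟨s, hs, rfl⟩ := mem_image.1 hna
    obtain ⟨s', hs', e⟩ := mem_image.1 hnb
    have h1 := hM s hs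
    have h2 := hM s' hs'
    apply hab
    simp only [hy] at e
    have e1 : (s' + M * (N + 1 + b)) / M = N + 1 + b := by
      rw [Nat.add_mul_div_left _ _ hM0, Nat.div_eq_of_lt h2, zero_add]
    have e2 : (s + M * (N + 1 + a)) / M = N + 1 + a := by
      rw [Nat.add_mul_div_left _ _ hM0, Nat.div_eq_of_lt h1, zero_add]
    rw [e, e2] at e1
    omega
  set A : ℕ → Set Ω := fun j => ⋂ n ∈ Tj j, B n with hA
  have hAm : ∀ j, MeasurableSet (A j) := fun j =>
    Finset.measurableSet_biInter _ fun n _ => hBm n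
  have hAind : iIndepSet A μ := by
    rw [iIndepSet_iff_meas_biInter hAm]
    intro J
    have e1 : (⋂ j ∈ J, A j) = ⋂ n ∈ J.biUnion Tj, B n := by
      rw [Finset.set_biInter_biUnion]
    rw [e1, hBind, prod_biUnion (hdisj J)]
    exact prod_congr rfl fun j _ => (hBind (Tj j)).symm
  -- divergence
  have hdiv : ∑' j, μ (A j) = ⊤ := by
    by_contra hne
    have hsum := ENNReal.summable_toReal hne
    have hcT : (0 : ℝ) < T.card := by exact_mod_cast hTn.card_pos
    obtain ⟨n0, hn0⟩ := hBp (1 / (2 * T.card)) (by positivity)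
    have hlow : ∀ j, n0 ≤ j → (2 * M : ℝ) ^ (-(1 / 2 : ℝ)) * (((j + (N + 1) : ℕ)) : ℝ) ^ (-(1 / 2 : ℝ)) ≤
        (μ (A j)).toReal := by
      intro j hj
      have e1 : (μ (A j)).toReal = ∏ n ∈ Tj j, μ.real (B n) := by
        rw [hA]; simp only
        rw [hBind, ENNReal.toReal_prod]; rfl
      have hinj : Set.InjOn (fun s => s + y j) (T : Set ℕ) := fun a _ b _ hab =>
        Nat.add_right_cancel hab
      have hyj : (0 : ℝ) < y j := by
        have : 0 < y j := Nat.mul_pos hM0 (by omega)
        exact_mod_cast this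
      have e2 : ((2 * y j : ℝ) ^ (-(1 / (2 * T.card) : ℝ))) ^ T.card ≤ ∏ n ∈ Tj j, μ.real (B n) := by
        have hcard : (Tj j).card = T.card := card_image_of_injOn hinj
        rw [← hcard, ← prod_const, hcard]
        refine prod_le_prod (fun n _ => by positivity) fun n hn => ?_
        obtain ⟨s, hs, rfl⟩ := mem_image.1 hn
        have h1 := hM s hs
        have h3 : j ≤ y j := by
          simp only [hy]
          calc j ≤ N + 1 + j := by omega
            _ ≤ M * (N + 1 + j) := Nat.le_mul_of_pos_left _ hM0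
        have h4 : M ≤ y j := by
          simp only [hy]
          exact Nat.le_mul_of_pos_right _ (by omega)
        refine le_trans ?_ (hn0 (s + y j) (by omega))
        refine Real.rpow_le_rpow_of_nonpos ?_ ?_ ?_
        · have : 0 < s + y j := by omega
          exact_mod_cast this
        · have : s + y j ≤ 2 * y j := by omega
          exact_mod_cast this
        · have : (0 : ℝ) < 1 / (2 * T.card) := by positivity
          linarith
      rw [e1]
      refine le_trans (le_of_eq ?_) e2
      have hMr : (0 : ℝ) < M := by exact_mod_cast hM0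
      have hJ : (0 : ℝ) < ((j + (N + 1) : ℕ) : ℝ) := by
        have : 0 < j + (N + 1) := by omega
        exact_mod_cast this
      have e3 : (2 * (y j : ℝ)) = 2 * M * ((j + (N + 1) : ℕ) : ℝ) := by
        simp only [hy]; push_cast; ring
      rw [P2.num _ _ T.card (by positivity) hJ hTn.card_pos, e3]
    have hsum2 : Summable (fun j : ℕ => (2 * M : ℝ) ^ (-(1 / 2 : ℝ)) *
        ((((j + n0) + (N + 1) : ℕ)) : ℝ) ^ (-(1 / 2 : ℝ))) := by
      have hs4 : Summable (fun j : ℕ => (μ (A (j + n0))).toReal) :=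
        (summable_nat_add_iff (f := fun j : ℕ => (μ (A j)).toReal) n0).2 hsum
      exact Summable.of_nonneg_of_le (fun j => mul_nonneg (Real.rpow_nonneg (by positivity) _)
        (Real.rpow_nonneg (Nat.cast_nonneg _) _)) (fun j => hlow (j + n0) (Nat.le_add_left _ _)) hs4
    have hM' : (2 * M : ℝ) ^ (-(1 / 2 : ℝ)) ≠ 0 := by
      have : (0 : ℝ) < M := by exact_mod_cast hM0
      positivity
    rw [summable_mul_left_iff hM'] at hsum2
    have hsum3 : Summable (fun j : ℕ => (((j + (n0 + (N + 1)) : ℕ)) : ℝ) ^ (-(1 / 2 : ℝ))) := by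
      refine hsum2.congr fun j => ?_
      rw [add_assoc]
    rw [summable_nat_add_iff (f := fun j : ℕ => (j : ℝ) ^ (-(1 / 2 : ℝ))) (n0 + (N + 1)),
      Real.summable_nat_rpow] at hsum3
    norm_num at hsum3
  have h1 := measure_limsup_eq_one hAm hAind hdiv
  have h2 : Filter.limsup A Filter.atTop ∈ ae μ :=
    (mem_ae_iff_prob_eq_one (MeasurableSet.measurableSet_limsup hAm)).2 h1
  filter_upwards [h2] with ω hω
  rw [Filter.mem_limsup_iff_frequently_mem] at hω
  obtain ⟨j, hj⟩ := hω.exists
  refine ⟨y j, ?_, fun s hs => ?_⟩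
  · simp only [hy]
    calc N < N + 1 + j := by omega
      _ ≤ M * (N + 1 + j) := Nat.le_mul_of_pos_left _ hM0
  · rw [hA] at hj
    simp only [Set.mem_iInter] at hj
    exact hj (s + y j) (mem_image.2 ⟨s, hs, rfl⟩)

end Pool.Agent.Helper76x.NZ
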