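import Pool.Agent.Helper76x.NZ.Stm

/-!
# The extension property for noise which is heavy on infinitely many scales

Variant of `t_P2` (helper33) in which the rate of the noise is large on infinitely many scales only.
-/

set_option autoImplicit false
set_option linter.all false

namespace Pool.Agent.Helper76x.NZ

open MeasureTheory ProbabilityTheory Finset

/-- The events `E n` are neither too rare nor too frequent on infinitely many scales. -/
def Heavy (p : ℕ → ℝ) : Prop := ∀ ε : ℝ, 0 < ε → ∀ n0 : ℕ, ∃ x : ℕ, n0 ≤ x ∧ ∀ n : ℕ, x ≤ n → n ≤ 2 * x →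
  (x : ℝ) ^ (-ε) ≤ p n ∧ p n ≤ 1 - (x : ℝ) ^ (-ε)

/-- The numbers `p n` are not too small on infinitely many scales. -/
def LowerHeavy (p : ℕ → ℝ) : Prop := ∀ ε : ℝ, 0 < ε → ∀ n0 : ℕ, ∃ x : ℕ, n0 ≤ x ∧
  ∀ n : ℕ, x ≤ n → n ≤ 2 * x → (x : ℝ) ^ (-ε) ≤ p n

theorem lowerHeavy_ext (Ω : Type) [MeasurableSpace Ω] (μ : Measure Ω) [IsProbabilityMeasure μ]
    (B : ℕ → Set Ω) (hBm : ∀ n, MeasurableSet (B n)) (hBi : iIndepSet B μ)
    (hp : LowerHeavy fun n => μ.real (B n)) :
    ∀ᵐ ω ∂μ, ∀ (S : Finset ℕ) (N : ℕ), ∃ y, N < y ∧ ∀ s ∈ insert 0 S, ω ∈ B (s + y) := by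
  classical
  rw [ae_all_iff]; intro S
  rw [ae_all_iff]; intro N
  -- the set T and the number M
  set T : Finset ℕ := insert 0 S with hT
  have hTn : T.Nonempty := ⟨0, mem_insert_self _ _⟩
  obtain ⟨M, hM⟩ : ∃ M : ℕ, ∀ s ∈ T, s < M := ⟨T.sup id + 1, fun s hs =>
    Nat.lt_succ_of_le (Finset.le_sup (f := id) hs)⟩
  have hM0 : 0 < M := (Nat.zero_le _).trans_lt (hM 0 (mem_insert_self _ _))
  have hBind : ∀ J : Finset ℕ, μ (⋂ n ∈ J, B n) = ∏ n ∈ J, μ (B n) :=
    (iIndepSet_iff_meas_biInter hBm).1 hBi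
  have hcT : (0 : ℝ) < T.card := by exact_mod_cast hTn.card_pos
  -- the bound on one scale
  have key : ∀ x : ℕ, N < x → 4 * M ≤ x → (∀ n : ℕ, x ≤ n → n ≤ 2 * x →
      (x : ℝ) ^ (-(1 / (2 * T.card) : ℝ)) ≤ μ.real (B n)) →
      μ.real {ω | ¬ ∃ y, N < y ∧ ∀ s ∈ T, ω ∈ B (s + y)} ≤ Real.exp (-((x : ℝ) ^ (1 / 2 : ℝ) / (2 * M))) := by
    intro x hNx hMx hxB
    have hx0 : (0 : ℝ) < x := by
      have : 0 < x := by omega
      exact_mod_cast this
    set y : ℕ → ℕ := fun j => x + M * j with hy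
    set Tj : ℕ → Finset ℕ := fun j => T.image (fun s => s + y j) with hTj
    have hdisj : ∀ J : Finset ℕ, (J : Set ℕ).PairwiseDisjoint Tj := by
      intro J a _ b _ hab
      rw [Function.onFun, disjoint_left]
      intro n hna hnb
      obtain ⟨s, hs, rfl⟩ := mem_image.1 hna
      obtain ⟨s', hs', e⟩ := mem_image.1 hnb
      have h1 := hM s hs
      have h2 := hM s' hs'
      apply hab
      simp only [hy] at e
      have e0 : s' + M * b = s + M * a := by omega
      have e1 : (s' + M * b) / M = b := by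
        rw [Nat.add_mul_div_left _ _ hM0, Nat.div_eq_of_lt h2, zero_add]
      have e2 : (s + M * a) / M = a := by
        rw [Nat.add_mul_div_left _ _ hM0, Nat.div_eq_of_lt h1, zero_add]
      rw [e0, e2] at e1
      exact e1
    set A : ℕ → Set Ω := fun j => ⋂ n ∈ Tj j, B n with hA
    have hAm : ∀ j, MeasurableSet (A j) := fun j =>
      Finset.measurableSet_biInter _ fun n _ => hBm n
    have hAind : iIndepSet A μ := by
      rw [iIndepSet_iff_meas_biInter hAm]
      intro J
      have e1 : (⋂ j ∈ J, A j) = ⋂ n ∈ J.biUnion Tj, B n := by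
        rw [Finset.set_biInter_biUnion]
      rw [e1, hBind, prod_biUnion (hdisj J)]
      exact prod_congr rfl fun j _ => (hBind (Tj j)).symm
    have hAc : ∀ J : Finset ℕ, μ (⋂ j ∈ J, (A j)ᶜ) = ∏ j ∈ J, μ ((A j)ᶜ) := by
      intro J
      have h1 := (iIndepSet_iff_iIndep A μ).1 hAind
      refine h1.meas_biInter fun n _ => ?_
      have h2 : MeasurableSet[MeasurableSpace.generateFrom {A n}] (A n) :=
        MeasurableSpace.measurableSet_generateFrom (Set.mem_singleton _)
      exact h2.compl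
    set J : ℕ := x / M - 1 with hJ
    have hdm := Nat.div_add_mod x M
    have hmod := Nat.mod_lt x hM0
    have hq : 4 ≤ x / M := (Nat.le_div_iff_mul_le hM0).2 (by omega)
    -- lower bound of one block
    have hlow : ∀ j ∈ Finset.range J, (x : ℝ) ^ (-(1 / 2) : ℝ) ≤ μ.real (A j) := by
      intro j hj
      have hj' := Finset.mem_range.1 hj
      have e1 : μ.real (A j) = ∏ n ∈ Tj j, μ.real (B n) := by
        rw [hA]; simp only
        unfold Measure.real
        rw [hBind, ENNReal.toReal_prod]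
      have hinj : Set.InjOn (fun s => s + y j) (T : Set ℕ) := fun a _ b _ hab =>
        Nat.add_right_cancel hab
      have hcard : (Tj j).card = T.card := card_image_of_injOn hinj
      have e2 : ((x : ℝ) ^ (-(1 / (2 * T.card) : ℝ))) ^ T.card ≤ ∏ n ∈ Tj j, μ.real (B n) := by
        rw [← hcard, ← prod_const, hcard]
        refine prod_le_prod (fun n _ => by positivity) fun n hn => ?_
        obtain ⟨s, hs, rfl⟩ := mem_image.1 hn
        have h1 := hM s hs
        refine hxB _ (by simp only [hy]; omega) ?_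
        have h2 : M * j + M ≤ M * (x / M) := by
          have h3 : M * (j + 1) ≤ M * (x / M) := Nat.mul_le_mul_left _ (by omega)
          rw [Nat.mul_add, Nat.mul_one] at h3
          exact h3
        simp only [hy]
        omega
      rw [e1]
      refine le_trans (le_of_eq ?_) e2
      rw [← Real.rpow_natCast, ← Real.rpow_mul hx0.le]
      congr 1
      field_simp
    -- all blocks
    have h1 : {ω | ¬ ∃ y, N < y ∧ ∀ s ∈ T, ω ∈ B (s + y)} ⊆ ⋂ j ∈ Finset.range J, (A j)ᶜ := by
      intro ω hω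
      simp only [Set.mem_iInter, Set.mem_compl_iff]
      intro j _ hAj
      apply hω
      refine ⟨y j, by simp only [hy]; omega, fun s hs => ?_⟩
      rw [hA] at hAj
      simp only [Set.mem_iInter] at hAj
      exact hAj (s + y j) (mem_image.2 ⟨s, hs, rfl⟩)
    have hJx : (x : ℝ) / (2 * M) ≤ J := by
      have hMr : (0 : ℝ) < M := by exact_mod_cast hM0
      rw [div_le_iff₀ (by positivity)]
      have h3 : x ≤ J * (2 * M) := by
        have h4 : x / M ≤ 2 * J := by omega
        have h5 : x < M * (x / M) + M := by omega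
        have h6 : M * (x / M) ≤ M * (2 * J) := Nat.mul_le_mul_left _ h4
        have h7 : x / M + 1 ≤ 2 * J := by omega
        have h8 : M * (x / M + 1) ≤ M * (2 * J) := Nat.mul_le_mul_left _ h7
        rw [Nat.mul_add, Nat.mul_one] at h8
        have h9 : M * (2 * J) = J * (2 * M) := by ring
        omega
      exact_mod_cast h3
    calc μ.real {ω | ¬ ∃ y, N < y ∧ ∀ s ∈ T, ω ∈ B (s + y)}
        ≤ μ.real (⋂ j ∈ Finset.range J, (A j)ᶜ) := measureReal_mono h1
      _ = ∏ j ∈ Finset.range J, μ.real ((A j)ᶜ) := by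
        unfold Measure.real
        rw [hAc, ENNReal.toReal_prod]
      _ ≤ ∏ j ∈ Finset.range J, Real.exp (-(x : ℝ) ^ (-(1 / 2) : ℝ)) := by
        refine prod_le_prod (fun j _ => measureReal_nonneg) fun j hj => ?_
        rw [probReal_compl_eq_one_sub (hAm j)]
        have h2 := hlow j hj
        have h3 := Real.add_one_le_exp (-(x : ℝ) ^ (-(1 / 2) : ℝ))
        linarith
      _ = Real.exp (-(x : ℝ) ^ (-(1 / 2) : ℝ) * J) := by
        rw [prod_const, Finset.card_range, ← Real.exp_nat_mul]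
        ring_nf
      _ ≤ Real.exp (-((x : ℝ) ^ (1 / 2 : ℝ) / (2 * M))) := by
        apply Real.exp_le_exp.2
        have h2 : (x : ℝ) ^ (-(1 / 2) : ℝ) * (x / (2 * M)) = (x : ℝ) ^ (1 / 2 : ℝ) / (2 * M) := by
          rw [← mul_div_assoc]
          congr 1
          nth_rewrite 2 [← Real.rpow_one (x : ℝ)]
          rw [← Real.rpow_add hx0]
          norm_num
        have h3 : (x : ℝ) ^ (-(1 / 2) : ℝ) * (x / (2 * M)) ≤ (x : ℝ) ^ (-(1 / 2) : ℝ) * J :=
          mul_le_mul_of_nonneg_left hJx (by positivity)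
        linarith
  -- conclusion
  have hbad : μ.real {ω | ¬ ∃ y, N < y ∧ ∀ s ∈ T, ω ∈ B (s + y)} ≤ 0 := by
    refine le_of_forall_pos_le_add fun η hη => ?_
    have hMr : (0 : ℝ) < M := by exact_mod_cast hM0
    have hlim : Filter.Tendsto (fun x : ℕ => Real.exp (-((x : ℝ) ^ (1 / 2 : ℝ) / (2 * M))))
        Filter.atTop (nhds 0) := by
      refine Real.tendsto_exp_neg_atTop_nhds_zero.comp ?_
      refine Filter.Tendsto.atTop_div_const (by positivity) ?_
      exact (tendsto_rpow_atTop (by norm_num)).comp tendsto_natCast_atTop_atTop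
    obtain ⟨n1, hn1⟩ := (hlim.eventually (gt_mem_nhds hη)).exists_forall_of_atTop
    obtain ⟨x, hx, hx2⟩ := hp (1 / (2 * T.card)) (by positivity) (max n1 (max (N + 1) (4 * M)))
    have h1 := key x (by omega) (by omega) fun n h2 h3 => hx2 n h2 h3
    have h2 := hn1 x (by omega)
    linarith
  have h0 : μ {ω | ¬ ∃ y, N < y ∧ ∀ s ∈ T, ω ∈ B (s + y)} = 0 := by
    have h1 : μ.real {ω | ¬ ∃ y, N < y ∧ ∀ s ∈ T, ω ∈ B (s + y)} = 0 :=
      le_antisymm hbad measureReal_nonneg
    exact (measureReal_eq_zero_iff).1 h1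
  exact h0

open Classical in
theorem heavy_ext (Ω : Type) [MeasurableSpace Ω] (μ : Measure Ω) [IsProbabilityMeasure μ]
    (E : ℕ → Set Ω) (c : ℕ → Bool) (hE : ∀ n, MeasurableSet (E n)) (hind : iIndepSet E μ)
    (hp : Heavy fun n => μ.real (E n)) :
    ∀ᵐ ω ∂μ, ∀ (i : Bool) (S : Finset ℕ) (N : ℕ), ∃ y, N < y ∧
      ∀ s ∈ insert 0 S, xor (c (s + y)) (decide (ω ∈ E (s + y))) = i := by
  rw [ae_all_iff]; intro i
  set B : ℕ → Set Ω := fun n => {ω | xor (c n) (decide (ω ∈ E n)) = i} with hB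
  have hBE : ∀ n, B n = E n ∨ B n = (E n)ᶜ := by
    intro n
    rw [hB]
    cases hc : c n <;> cases hi : i <;> simp only [hc, hi]
    · right; ext ω; simp
    · left; ext ω; simp
    · left; ext ω; simp
    · right; ext ω; simp
  have hBm : ∀ n, MeasurableSet (B n) := by
    intro n
    rcases hBE n with h | h <;> rw [h]
    · exact hE n
    · exact (hE n).compl
  have hBi : iIndepSet B μ := by
    rw [iIndepSet_iff_meas_biInter hBm]
    intro J
    have h1 := (iIndepSet_iff_iIndep E μ).1 hind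
    refine h1.meas_biInter fun n _ => ?_
    have h2 : MeasurableSet[MeasurableSpace.generateFrom {E n}] (E n) :=
      MeasurableSpace.measurableSet_generateFrom (Set.mem_singleton _)
    rcases hBE n with h | h <;> rw [h]
    · exact h2
    · exact h2.compl
  refine lowerHeavy_ext Ω μ B hBm hBi fun ε hε n0 => ?_
  obtain ⟨x, hx, hx2⟩ := hp ε hε n0
  refine ⟨x, hx, fun n h2 h3 => ?_⟩
  obtain ⟨e1, e2⟩ := hx2 n h2 h3
  dsimp only at e1 e2 ⊢
  rcases hBE n with h | h <;> rw [h]
  · exact e1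
  · rw [probReal_compl_eq_one_sub (hE n)]
    linarith

/-- Random colourings with `k` colours. -/
theorem colour_ext (Ω : Type) [MeasurableSpace Ω] (μ : Measure Ω) [IsProbabilityMeasure μ]
    {k : ℕ} (ξ : ℕ → Ω → Fin k) (hm : ∀ n, Measurable (ξ n)) (hi : iIndepFun ξ μ) (i : Fin k)
    (hp : LowerHeavy fun n => μ.real {ω | ξ n ω = i}) :
    ∀ᵐ ω ∂μ, ∀ (S : Finset ℕ) (N : ℕ), ∃ y, N < y ∧ ∀ s ∈ insert 0 S, ξ (s + y) ω = i := by
  have hBm : ∀ n, MeasurableSet {ω | ξ n ω = i} := fun n =>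
    hm n (measurableSet_singleton i)
  refine lowerHeavy_ext Ω μ (fun n => {ω | ξ n ω = i}) hBm ?_ hp
  rw [iIndepSet_iff_meas_biInter hBm]
  intro J
  exact hi.measure_inter_preimage_eq_mul J (sets := fun _ => {i})
    (fun n _ => measurableSet_singleton i)

end Pool.Agent.Helper76x.NZ
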