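import Pool.Agent.Helper76x.NZ.P3

/-! Nonincreasing rates: polynomial decay or large on infinitely many scales. -/

set_option autoImplicit false

namespace Pool.Agent.Helper76x.NZ

open Filter

/-- Polynomial decay. -/
def PolyDecay (p : ℕ → ℝ) : Prop :=
  ∃ C δ : ℝ, 0 < δ ∧ ∀ n : ℕ, 0 < n → p n ≤ C * (n : ℝ) ^ (-δ)

theorem not_heavy {p : ℕ → ℝ} (h : PolyDecay p) : ¬ Heavy p := by
  intro hH
  obtain ⟨C, δ, hδ, hp⟩ := h
  have hlim : Tendsto (fun x : ℕ => (x : ℝ) ^ (δ / 2)) atTop atTop :=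
    (tendsto_rpow_atTop (by positivity)).comp tendsto_natCast_atTop_atTop
  obtain ⟨n1, hn1⟩ := (hlim.eventually_gt_atTop C).exists_forall_of_atTop
  obtain ⟨x, hx, hx2⟩ := hH (δ / 2) (by positivity) (max n1 1)
  have hx0 : 0 < x := by omega
  have hx0' : (0 : ℝ) < x := by exact_mod_cast hx0
  have h1 := (hx2 x le_rfl (by omega)).1
  have h2 := hp x hx0
  have h3 := hn1 x (by omega)
  have h4 : (x : ℝ) ^ (-(δ / 2)) = (x : ℝ) ^ (δ / 2) * (x : ℝ) ^ (-δ) := by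
    rw [← Real.rpow_add hx0']
    congr 1
    ring
  have h5 : 0 < (x : ℝ) ^ (-δ) := by positivity
  have h6 : (x : ℝ) ^ (δ / 2) * (x : ℝ) ^ (-δ) ≤ C * (x : ℝ) ^ (-δ) := by
    rw [← h4]
    exact h1.trans h2
  have h7 := le_of_mul_le_mul_right h6 h5
  linarith

theorem decay_of_not_heavy {p : ℕ → ℝ} (hp : Antitone p) (h12 : ∀ n, p n ≤ 1 / 2)
    (h : ¬ Heavy p) : PolyDecay p := by
  unfold Heavy at h
  push Not at h
  obtain ⟨ε, hε, n0, h1⟩ := h
  have hlim : Tendsto (fun x : ℕ => (x : ℝ) ^ (-ε)) atTop (nhds 0) :=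
    (tendsto_rpow_neg_atTop hε).comp tendsto_natCast_atTop_atTop
  obtain ⟨n1, hn1⟩ := (hlim.eventually (gt_mem_nhds (show (0 : ℝ) < 1 / 2 by norm_num))).exists_forall_of_atTop
  have h2 : ∀ x : ℕ, max n0 n1 ≤ x → p (2 * x) < (x : ℝ) ^ (-ε) := by
    intro x hx
    obtain ⟨n, h3, h4, h5⟩ := h1 x (by omega)
    have h6 : p (2 * x) ≤ p n := hp h4
    by_contra hc
    have h7 : (x : ℝ) ^ (-ε) ≤ p n := by linarith [not_lt.1 hc]
    have h8 := h5 h7
    have h9 := hn1 x (by omega)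
    have h10 := h12 n
    linarith
  set K : ℕ := 4 * (max n0 n1 + 1) with hK
  refine ⟨(K : ℝ) ^ ε, ε, hε, fun n hn => ?_⟩
  have hn' : (0 : ℝ) < n := by exact_mod_cast hn
  have hK0 : (0 : ℝ) < K := by
    have : 0 < K := by omega
    exact_mod_cast this
  have e : (K : ℝ) ^ ε * (n : ℝ) ^ (-ε) = ((n : ℝ) / K) ^ (-ε) := by
    rw [Real.div_rpow hn'.le hK0.le, Real.rpow_neg hK0.le ε, div_inv_eq_mul, mul_comm]
  rw [e]
  rcases Nat.lt_or_ge n K with h3 | h3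
  · have h4 : (n : ℝ) / K ≤ 1 := by
      rw [div_le_one hK0]
      exact_mod_cast h3.le
    have h5 : (1 : ℝ) ≤ ((n : ℝ) / K) ^ (-ε) :=
      Real.one_le_rpow_of_pos_of_le_one_of_nonpos (by positivity) h4 (by linarith)
    linarith [h12 n]
  · have h4 := h2 (n / 2) (by omega)
    have h5 : p n ≤ p (2 * (n / 2)) := hp (by omega)
    have h6 : ((n / 2 : ℕ) : ℝ) ^ (-ε) ≤ ((n : ℝ) / K) ^ (-ε) := by
      refine Real.rpow_le_rpow_of_nonpos (by positivity) ?_ (by linarith)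
      rw [div_le_iff₀ hK0]
      have h7 : n ≤ (n / 2) * K := by
        have h8 : n ≤ (n / 2) * 4 := by omega
        exact h8.trans (Nat.mul_le_mul_left _ (by omega))
      exact_mod_cast h7
    linarith

end Pool.Agent.Helper76x.NZ
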